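import Mathlib.Data.Fintype.Card

set_option autoImplicit false

/-!
Lattice terms and operations defined from the order, and their values in a linear order of the
natural numbers.
-/

namespace Pool.Agent.H2.LP

/-- Lattice terms in `r` variables. -/
inductive LatticeTerm (r : ℕ) : Type
  | var : Fin r → LatticeTerm r
  | inf : LatticeTerm r → LatticeTerm r → LatticeTerm r
  | sup : LatticeTerm r → LatticeTerm r → LatticeTerm r

open Classical in
/-- The minimum of two elements of a linear order. -/
noncomputable def minimum (le : ℕ → ℕ → Prop) (u v : ℕ) : ℕ := if le u v then u else v

open Classical in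
/-- The maximum of two elements of a linear order. -/
noncomputable def maximum (le : ℕ → ℕ → Prop) (u v : ℕ) : ℕ := if le u v then v else u

/-- The value of a lattice term in a linear order. -/
noncomputable def LatticeTerm.value (le : ℕ → ℕ → Prop) {r : ℕ} :
    LatticeTerm r → (Fin r → ℕ) → ℕ
  | .var i, x => x i
  | .inf s t, x => minimum le (s.value le x) (t.value le x)
  | .sup s t, x => maximum le (s.value le x) (t.value le x)

/-- The value of a lattice term in the two-element lattice. -/
def LatticeTerm.bool {r : ℕ} : LatticeTerm r → (Fin r → Bool) → Bool
  | .var i, a => a i
  | .inf s t, a => s.bool a && t.bool a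
  | .sup s t, a => s.bool a || t.bool a

end Pool.Agent.H2.LP
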