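import Mathlib.Logic.Equiv.Basic
import Pool.Agent.H2.LP.Term

set_option autoImplicit false

/-!
Linear orders, minimum, maximum and median, lattice terms, and the relations they preserve.
-/

namespace Pool.Agent.H2.LP

/-- linear orders -/
structure Lin (le : ℕ → ℕ → Prop) : Prop where
  refl : ∀ u, le u u
  anti : ∀ u v, le u v → le v u → u = v
  trans : ∀ u v w, le u v → le v w → le u w
  total : ∀ u v, le u v ∨ le v u

/-- the opposite order -/
def op (le : ℕ → ℕ → Prop) (u v : ℕ) : Prop := le v u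

/-- the minimum -/
noncomputable abbrev mn (le : ℕ → ℕ → Prop) (u v : ℕ) : ℕ := minimum le u v

/-- the maximum -/
noncomputable abbrev mx (le : ℕ → ℕ → Prop) (u v : ℕ) : ℕ := maximum le u v

/-- the median -/
noncomputable def md (le : ℕ → ℕ → Prop) (u v w : ℕ) : ℕ :=
  mx le (mn le u v) (mn le (mx le u v) w)

section lin

variable {le : ℕ → ℕ → Prop} (h : Lin le)

include h

theorem Lin.op : Lin (op le) where
  refl := h.refl
  anti := fun u v h1 h2 => h.anti u v h2 h1
  trans := fun u v w h1 h2 => h.trans w v u h2 h1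
  total := fun u v => h.total v u

theorem le_mn (w u v : ℕ) : le w (mn le u v) ↔ le w u ∧ le w v := by
  unfold mn minimum
  split_ifs with h1
  · exact ⟨fun h2 => ⟨h2, h.trans _ _ _ h2 h1⟩, fun h2 => h2.1⟩
  · have h3 := (h.total u v).resolve_left h1
    exact ⟨fun h2 => ⟨h.trans _ _ _ h2 h3, h2⟩, fun h2 => h2.2⟩

theorem le_mx (w u v : ℕ) : le w (mx le u v) ↔ le w u ∨ le w v := by
  unfold mx maximum
  split_ifs with h1
  · exact ⟨fun h2 => Or.inr h2, fun h2 => h2.elim (fun h3 => h.trans _ _ _ h3 h1) id⟩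
  · have h3 := (h.total u v).resolve_left h1
    exact ⟨fun h2 => Or.inl h2, fun h2 => h2.elim id fun h4 => h.trans _ _ _ h4 h3⟩

theorem mn_le (w u v : ℕ) : le (mn le u v) w ↔ le u w ∨ le v w := by
  unfold mn minimum
  split_ifs with h1
  · exact ⟨fun h2 => Or.inl h2, fun h2 => h2.elim id fun h3 => h.trans _ _ _ h1 h3⟩
  · have h3 := (h.total u v).resolve_left h1
    exact ⟨fun h2 => Or.inr h2, fun h2 => h2.elim (fun h4 => h.trans _ _ _ h3 h4) id⟩

theorem mx_le (w u v : ℕ) : le (mx le u v) w ↔ le u w ∧ le v w := by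
  unfold mx maximum
  split_ifs with h1
  · exact ⟨fun h2 => ⟨h.trans _ _ _ h1 h2, h2⟩, fun h2 => h2.2⟩
  · have h3 := (h.total u v).resolve_left h1
    exact ⟨fun h2 => ⟨h2, h.trans _ _ _ h3 h2⟩, fun h2 => h2.1⟩

theorem le_md (x u v w : ℕ) : le x (md le u v w) ↔
    (le x u ∧ le x v) ∨ (le x u ∨ le x v) ∧ le x w := by
  unfold md
  rw [le_mx h, le_mn h, le_mn h, le_mx h]

theorem md_le (x u v w : ℕ) : le (md le u v w) x ↔
    (le u x ∨ le v x) ∧ ((le u x ∧ le v x) ∨ le w x) := by
  unfold md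
  rw [mx_le h, mn_le h, mn_le h, mx_le h]

/-- two elements with the same lower bounds are equal -/
theorem eq_of {u v : ℕ} (h1 : ∀ w, le w u ↔ le w v) : u = v :=
  h.anti u v ((h1 u).1 (h.refl u)) ((h1 v).2 (h.refl v))

theorem md_op (u v w : ℕ) : md (LP.op le) u v w = md le u v w := by
  refine h.anti _ _ ?_ ?_
  · have h1 := (le_md h.op (md le u v w) u v w)
    have h2 : LP.op le (md le u v w) (md (LP.op le) u v w) := by
      rw [h1]
      have h3 := (md_le h (md le u v w) u v w).1 (h.refl _)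
      unfold LP.op
      tauto
    exact h2
  · have h1 := (md_le h.op (md le u v w) u v w)
    have h2 : LP.op le (md (LP.op le) u v w) (md le u v w) := by
      rw [h1]
      have h3 := (le_md h (md le u v w) u v w).1 (h.refl _)
      unfold LP.op
      tauto
    exact h2

theorem mn_op (u v : ℕ) : mn (LP.op le) u v = mx le u v := by
  refine h.anti _ _ ?_ ?_
  · have h2 : LP.op le (mx le u v) (mn (LP.op le) u v) := by
      rw [le_mn h.op]
      exact (mx_le h _ _ _).1 (h.refl _)
    exact h2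
  · have h2 : LP.op le (mn (LP.op le) u v) (mx le u v) := by
      rw [mn_le h.op]
      exact (le_mx h _ _ _).1 (h.refl _)
    exact h2

theorem mx_op (u v : ℕ) : mx (LP.op le) u v = mn le u v := by
  refine h.anti _ _ ?_ ?_
  · have h2 : LP.op le (mn le u v) (mx (LP.op le) u v) := by
      rw [le_mx h.op]
      exact (mn_le h _ _ _).1 (h.refl _)
    exact h2
  · have h2 : LP.op le (mx (LP.op le) u v) (mn le u v) := by
      rw [mx_le h.op]
      exact (le_mn h _ _ _).1 (h.refl _)
    exact h2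

theorem md_a (u w : ℕ) : md le u u w = u := by
  refine eq_of h fun x => ?_
  rw [le_md h]
  tauto

theorem md_b (u w : ℕ) : md le u w u = u := by
  refine eq_of h fun x => ?_
  rw [le_md h]
  tauto

theorem md_c (u w : ℕ) : md le w u u = u := by
  refine eq_of h fun x => ?_
  rw [le_md h]
  tauto

end lin

/-! ### closed relations -/

/-- relations which are closed under an operation -/
def ClG {r : ℕ} (m : (Fin r → ℕ) → ℕ) {n : ℕ} (S : (Fin n → ℕ) → Prop) : Prop :=
  ∀ s : Fin r → Fin n → ℕ, (∀ p, S (s p)) → S fun j => m fun p => s p j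

/-- closed under the median -/
def Cl3 (m : ℕ → ℕ → ℕ → ℕ) {n : ℕ} (S : (Fin n → ℕ) → Prop) : Prop :=
  ∀ s t u, S s → S t → S u → S fun j => m (s j) (t j) (u j)

/-- closed under a binary operation -/
def Cl2 (m : ℕ → ℕ → ℕ) {n : ℕ} (S : (Fin n → ℕ) → Prop) : Prop :=
  ∀ s t, S s → S t → S fun j => m (s j) (t j)

section bp

variable {le : ℕ → ℕ → Prop} (h : Lin le) {n : ℕ} {S : (Fin n → ℕ) → Prop}

include h

/-- relations with a majority operation are determined by the pairs of coordinates -/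
theorem two_dec (h1 : Cl3 (md le) S) (w : Fin n → ℕ) (h0 : ∃ t, S t)
    (h3 : ∀ k l, ∃ t, S t ∧ t k = w k ∧ t l = w l) : S w := by
  have k1 : ∀ (F : Finset (Fin n)) (k l : Fin n), ∃ t, S t ∧ t k = w k ∧ t l = w l ∧
      ∀ i ∈ F, t i = w i := by
    intro F
    induction F using Finset.induction_on with
    | empty =>
      intro k l
      obtain ⟨t, ht, h4, h5⟩ := h3 k l
      exact ⟨t, ht, h4, h5, fun i hi => absurd hi (Finset.notMem_empty i)⟩
    | insert i F _ ih =>
      intro k l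
      obtain ⟨t1, a1, b1, c1, d1⟩ := ih i k
      obtain ⟨t2, a2, b2, c2, d2⟩ := ih i l
      obtain ⟨t3, a3, b3, c3, d3⟩ := ih k l
      refine ⟨_, h1 t1 t2 t3 a1 a2 a3, ?_, ?_, fun i' hi' => ?_⟩
      · show md le (t1 k) (t2 k) (t3 k) = w k
        rw [c1, b3]
        exact md_b h _ _
      · show md le (t1 l) (t2 l) (t3 l) = w l
        rw [c2, c3]
        exact md_c h _ _
      · show md le (t1 i') (t2 i') (t3 i') = w i'
        rcases Finset.mem_insert.1 hi' with rfl | hi'
        · rw [b1, b2]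
          exact md_a h _ _
        · rw [d1 i' hi', d2 i' hi']
          exact md_a h _ _
  rcases Nat.eq_zero_or_pos n with hn | hn
  · subst hn
    obtain ⟨t, ht⟩ := h0
    have : t = w := funext fun j => j.elim0
    rw [← this]
    exact ht
  · obtain ⟨t, ht, -, -, h4⟩ := k1 Finset.univ ⟨0, hn⟩ ⟨0, hn⟩
    have : t = w := funext fun j => h4 j (Finset.mem_univ j)
    rw [← this]
    exact ht

/-- the comparison with a sign -/
def cm (le : ℕ → ℕ → Prop) (s : Bool) (u v : ℕ) : Prop := if s = true then le u v else le v u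

/-- the determination by signed comparisons -/
theorem quad (h1 : Cl3 (md le) S) (w : Fin n → ℕ) (h0 : ∃ t, S t)
    (h3 : ∀ s s' k l, ∃ t, S t ∧ cm le s (t k) (w k) ∧ cm le s' (t l) (w l)) : S w := by
  have hpt : ∀ k, ∃ t, S t ∧ t k = w k := by
    intro k
    obtain ⟨t, ht, h4, h5⟩ := h3 true false k k
    exact ⟨t, ht, h.anti _ _ h4 h5⟩
  refine two_dec h h1 w h0 fun k l => ?_
  have hs : ∀ s, ∃ t, S t ∧ t k = w k ∧ cm le s (t l) (w l) := by
    intro s
    obtain ⟨t1, a1, b1⟩ := hpt k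
    obtain ⟨t2, a2, b2, c2⟩ := h3 true s k l
    obtain ⟨t3, a3, b3, c3⟩ := h3 false s k l
    have hb2 : le (t2 k) (w k) := b2
    have hb3 : le (w k) (t3 k) := b3
    refine ⟨_, h1 t1 t2 t3 a1 a2 a3, ?_, ?_⟩
    · show md le (t1 k) (t2 k) (t3 k) = w k
      rw [b1]
      refine h.anti _ _ ?_ ?_
      · rw [md_le h]
        exact ⟨Or.inl (h.refl _), Or.inl ⟨h.refl _, hb2⟩⟩
      · rw [le_md h]
        exact Or.inr ⟨Or.inl (h.refl _), hb3⟩
    · show cm le s (md le (t1 l) (t2 l) (t3 l)) (w l)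
      cases s with
      | true =>
        have hc2 : le (t2 l) (w l) := c2
        have hc3 : le (t3 l) (w l) := c3
        show le (md le (t1 l) (t2 l) (t3 l)) (w l)
        rw [md_le h]
        exact ⟨Or.inr hc2, Or.inr hc3⟩
      | false =>
        have hc2 : le (w l) (t2 l) := c2
        have hc3 : le (w l) (t3 l) := c3
        show le (w l) (md le (t1 l) (t2 l) (t3 l))
        rw [le_md h]
        exact Or.inr ⟨Or.inr hc2, hc3⟩
  obtain ⟨t1, a1, b1, c1⟩ := hs true
  obtain ⟨t2, a2, b2, c2⟩ := hs false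
  obtain ⟨t3, a3, b3⟩ := hpt l
  have hc1 : le (t1 l) (w l) := c1
  have hc2 : le (w l) (t2 l) := c2
  refine ⟨_, h1 t1 t2 t3 a1 a2 a3, ?_, ?_⟩
  · show md le (t1 k) (t2 k) (t3 k) = w k
    rw [b1, b2]
    exact md_a h _ _
  · show md le (t1 l) (t2 l) (t3 l) = w l
    rw [b3]
    refine h.anti _ _ ?_ ?_
    · rw [md_le h]
      exact ⟨Or.inl hc1, Or.inr (h.refl _)⟩
    · rw [le_md h]
      exact Or.inr ⟨Or.inr hc2, h.refl _⟩

end bp

end Pool.Agent.H2.LP
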