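import Mathlib.Data.Fin.VecNotation
import Mathlib.Tactic.FinCases
import Pool.Agent.H2.LP.Bas

set_option autoImplicit false

/-!
Relations which are closed under the values of lattice terms.
-/

namespace Pool.Agent.H2.LP

namespace LatticeTerm

/-- substitution of variables -/
def rename {r m : ℕ} (j : Fin r → Fin m) : LatticeTerm r → LatticeTerm m
  | .var i => .var (j i)
  | .inf s t => .inf (s.rename j) (t.rename j)
  | .sup s t => .sup (s.rename j) (t.rename j)

/-- the dual term -/
def dual {r : ℕ} : LatticeTerm r → LatticeTerm r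
  | .var i => .var i
  | .inf s t => .sup s.dual t.dual
  | .sup s t => .inf s.dual t.dual

theorem value_rename (le : ℕ → ℕ → Prop) {r m : ℕ} (j : Fin r → Fin m) (t : LatticeTerm r)
    (x : Fin m → ℕ) : (t.rename j).value le x = t.value le fun i => x (j i) := by
  induction t with
  | var i => rfl
  | inf s t h1 h2 =>
    show minimum le _ _ = minimum le _ _
    rw [h1, h2]
  | sup s t h1 h2 =>
    show maximum le _ _ = maximum le _ _
    rw [h1, h2]

theorem bool_rename {r m : ℕ} (j : Fin r → Fin m) (t : LatticeTerm r)
    (x : Fin m → Bool) : (t.rename j).bool x = t.bool fun i => x (j i) := by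
  induction t with
  | var i => rfl
  | inf s t h1 h2 =>
    show (_ && _) = (_ && _)
    rw [h1, h2]
  | sup s t h1 h2 =>
    show (_ || _) = (_ || _)
    rw [h1, h2]

theorem bool_mono {r : ℕ} (t : LatticeTerm r) {A B : Fin r → Bool}
    (h : ∀ i, A i = true → B i = true) (h1 : t.bool A = true) : t.bool B = true := by
  induction t with
  | var i => exact h i h1
  | inf s t h2 h3 =>
    have h4 : (s.bool A && t.bool A) = true := h1
    rw [Bool.and_eq_true] at h4
    show (s.bool B && t.bool B) = true
    rw [Bool.and_eq_true]
    exact ⟨h2 h4.1, h3 h4.2⟩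
  | sup s t h2 h3 =>
    have h4 : (s.bool A || t.bool A) = true := h1
    rw [Bool.or_eq_true] at h4
    show (s.bool B || t.bool B) = true
    rw [Bool.or_eq_true]
    exact h4.imp h2 h3

theorem bool_false {r : ℕ} (t : LatticeTerm r) : t.bool (fun _ => false) = false := by
  induction t with
  | var i => rfl
  | inf s t h2 h3 =>
    show (_ && _) = false
    rw [h2, h3]
    rfl
  | sup s t h2 h3 =>
    show (_ || _) = false
    rw [h2, h3]
    rfl

theorem bool_true {r : ℕ} (t : LatticeTerm r) : t.bool (fun _ => true) = true := by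
  induction t with
  | var i => rfl
  | inf s t h2 h3 =>
    show (_ && _) = true
    rw [h2, h3]
    rfl
  | sup s t h2 h3 =>
    show (_ || _) = true
    rw [h2, h3]
    rfl

theorem bool_dual {r : ℕ} (t : LatticeTerm r) (A : Fin r → Bool) :
    t.dual.bool A = !(t.bool fun i => !(A i)) := by
  induction t with
  | var i =>
    show A i = !(!(A i))
    rw [Bool.not_not]
  | inf s t h2 h3 =>
    show (_ || _) = !(_ && _)
    rw [h2, h3, Bool.not_and]
  | sup s t h2 h3 =>
    show (_ && _) = !(_ || _)
    rw [h2, h3, Bool.not_or]

open Classical in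
theorem le_value {le : ℕ → ℕ → Prop} (h : Lin le) {r : ℕ} (t : LatticeTerm r) (x : Fin r → ℕ)
    (c : ℕ) : le c (t.value le x) ↔ t.bool (fun i => decide (le c (x i))) = true := by
  induction t with
  | var i =>
    show le c (x i) ↔ decide (le c (x i)) = true
    rw [decide_eq_true_iff]
  | inf s t h1 h2 =>
    show le c (mn le _ _) ↔ (_ && _) = true
    rw [le_mn h, h1, h2, Bool.and_eq_true]
  | sup s t h1 h2 =>
    show le c (mx le _ _) ↔ (_ || _) = true
    rw [le_mx h, h1, h2, Bool.or_eq_true]

theorem value_congr {le : ℕ → ℕ → Prop} (h : Lin le) {r : ℕ} {s t : LatticeTerm r}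
    (h1 : ∀ A, s.bool A = true ↔ t.bool A = true) (x : Fin r → ℕ) :
    s.value le x = t.value le x := by
  classical
  refine eq_of h fun w => ?_
  rw [le_value h, le_value h, h1]

theorem value_dual {le : ℕ → ℕ → Prop} (h : Lin le) {r : ℕ} (t : LatticeTerm r)
    (x : Fin r → ℕ) : t.dual.value (op le) x = t.value le x := by
  induction t with
  | var i => rfl
  | inf s t h1 h2 =>
    show mx (op le) _ _ = mn le _ _
    rw [h1, h2, mx_op h]
  | sup s t h1 h2 =>
    show mn (op le) _ _ = mx le _ _
    rw [h1, h2, mn_op h]

end LatticeTerm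

/-- the median as a term -/
def mdT : LatticeTerm 3 :=
  .sup (.inf (.var 0) (.var 1)) (.inf (.sup (.var 0) (.var 1)) (.var 2))

theorem value_mdT (le : ℕ → ℕ → Prop) (x : Fin 3 → ℕ) :
    mdT.value le x = md le (x 0) (x 1) (x 2) := rfl

theorem bool_mdT (A : Fin 3 → Bool) : mdT.bool A = true ↔
    (A 0 = true ∧ A 1 = true) ∨ (A 0 = true ∨ A 1 = true) ∧ A 2 = true := by
  show ((A 0 && A 1) || ((A 0 || A 1) && A 2)) = true ↔ _
  simp only [Bool.or_eq_true, Bool.and_eq_true]

section closed

variable {le : ℕ → ℕ → Prop} (h : Lin le) {n : ℕ} {S : (Fin n → ℕ) → Prop}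

theorem cl_rename {r m : ℕ} (j : Fin r → Fin m) {t : LatticeTerm r} (h1 : ClG (t.value le) S) :
    ClG ((t.rename j).value le) S := by
  intro s hs
  have h2 := h1 (fun i => s (j i)) fun p => hs (j p)
  have e : (fun k => (t.rename j).value le fun p => s p k) =
      fun k => t.value le fun i => s (j i) k := by
    funext k
    exact LatticeTerm.value_rename le j t _
  rw [e]
  exact h2

include h

theorem cl_congr {r : ℕ} {s t : LatticeTerm r}
    (h1 : ∀ A, s.bool A = true ↔ t.bool A = true) (h2 : ClG (s.value le) S) :
    ClG (t.value le) S := by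
  have e : s.value le = t.value le := funext fun x => LatticeTerm.value_congr h h1 x
  rw [← e]
  exact h2

theorem cl_md {t : LatticeTerm 3} (h1 : ∀ A, t.bool A = true ↔ mdT.bool A = true)
    (h2 : ClG (t.value le) S) : Cl3 (md le) S := by
  have h3 := cl_congr h h1 h2
  intro a b c ha hb hc
  have := h3 ![a, b, c] (fun p => by
    fin_cases p
    · exact ha
    · exact hb
    · exact hc)
  exact this

theorem cl_mx {t : LatticeTerm 2} (h1 : ∀ A, t.bool A = true ↔ (A 0 = true ∨ A 1 = true))
    (h2 : ClG (t.value le) S) : Cl2 (mx le) S := by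
  have h3 := cl_congr h (s := t) (t := LatticeTerm.sup (.var 0) (.var 1)) (fun A => by
    rw [h1]
    show _ ↔ (A 0 || A 1) = true
    rw [Bool.or_eq_true]) h2
  intro a b ha hb
  have := h3 ![a, b] (fun p => by
    fin_cases p
    · exact ha
    · exact hb)
  exact this

omit h in
theorem md_of (h1 : Cl2 (mn le) S) (h2 : Cl2 (mx le) S) : Cl3 (md le) S := fun s t u hs ht hu =>
  h2 _ _ (h1 s t hs ht) (h1 _ u (h2 s t hs ht) hu)

end closed

/-- any three true points have a common true coordinate -/
def Common {r : ℕ} (t : LatticeTerm r) : Prop :=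
  ∀ A B C : Fin r → Bool, t.bool A = true → t.bool B = true → t.bool C = true →
    ∃ i, A i = true ∧ B i = true ∧ C i = true

/-- any three false points have a common false coordinate -/
def CoCommon {r : ℕ} (t : LatticeTerm r) : Prop :=
  ∀ A B C : Fin r → Bool, t.bool A = false → t.bool B = false → t.bool C = false →
    ∃ i, A i = false ∧ B i = false ∧ C i = false

theorem co_dual {r : ℕ} {t : LatticeTerm r} (h : Common t.dual) : CoCommon t := by
  intro A B C hA hB hC
  have e : ∀ X : Fin r → Bool, t.bool X = false → t.dual.bool (fun i => !(X i)) = true := by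
    intro X hX
    rw [LatticeTerm.bool_dual]
    have : (fun i => !(!(X i))) = X := funext fun i => Bool.not_not _
    rw [this, hX]
    rfl
  obtain ⟨i, h1, h2, h3⟩ := h _ _ _ (e A hA) (e B hB) (e C hC)
  refine ⟨i, ?_, ?_, ?_⟩
  · simpa using h1
  · simpa using h2
  · simpa using h3

theorem dual_co {r : ℕ} {t : LatticeTerm r} (h : CoCommon t) : Common t.dual := by
  intro A B C hA hB hC
  have e : ∀ X : Fin r → Bool, t.dual.bool X = true → t.bool (fun i => !(X i)) = false := by
    intro X hX
    rw [LatticeTerm.bool_dual] at hX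
    simpa using hX
  obtain ⟨i, h1, h2, h3⟩ := h _ _ _ (e A hA) (e B hB) (e C hC)
  refine ⟨i, ?_, ?_, ?_⟩
  · simpa using h1
  · simpa using h2
  · simpa using h3

section main

variable {le : ℕ → ℕ → Prop} (h : Lin le) {n : ℕ} {S : (Fin n → ℕ) → Prop}

include h

/-- a ternary term above the median -/
theorem above {p : LatticeTerm 3} (h1 : ∀ A : Fin 3 → Bool, A 0 = true → A 1 = true →
      p.bool A = true) (h2 : ∀ A : Fin 3 → Bool, A 0 = true → A 2 = true → p.bool A = true)
    (h3 : ∀ A : Fin 3 → Bool, A 1 = true → A 2 = true → p.bool A = true)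
    (hS : ClG (p.value le) S) : Cl3 (md le) S ∨ Cl2 (mx le) S := by
  by_cases hc : ∃ c : Fin 3, p.bool (fun k => decide (k = c)) = true
  · right
    obtain ⟨c, hc⟩ := hc
    refine cl_mx h (t := p.rename fun k => if k = c then 0 else 1) (fun A => ?_)
      (cl_rename _ hS)
    rw [LatticeTerm.bool_rename]
    constructor
    · intro h4
      by_contra hn
      rw [not_or] at hn
      have e : (fun i : Fin 3 => A (if i = c then 0 else 1)) = fun _ => false := by
        funext i
        split_ifs
        · exact Bool.eq_false_iff.2 hn.1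
        · exact Bool.eq_false_iff.2 hn.2
      rw [e, LatticeTerm.bool_false] at h4
      exact absurd h4 (by decide)
    · rintro (h4 | h4)
      · refine LatticeTerm.bool_mono p (fun i hi => ?_) hc
        have : i = c := by simpa using hi
        rw [if_pos this]
        exact h4
      · have hd : ∀ k, k ≠ c → A (if k = c then 0 else 1) = true := fun k hk => by
          rw [if_neg hk]
          exact h4
        fin_cases c
        · exact h3 _ (hd 1 (by decide)) (hd 2 (by decide))
        · exact h2 _ (hd 0 (by decide)) (hd 2 (by decide))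
        · exact h1 _ (hd 0 (by decide)) (hd 1 (by decide))
  · left
    refine cl_md h (t := p) (fun A => ?_) hS
    rw [bool_mdT]
    constructor
    · intro h4
      by_contra hn
      have : ∃ c : Fin 3, ∀ k, A k = true → k = c := by
        by_cases a0 : A 0 = true
        · refine ⟨0, fun k hk => ?_⟩
          fin_cases k
          · rfl
          · exact absurd (Or.inl ⟨a0, hk⟩) hn
          · exact absurd (Or.inr ⟨Or.inl a0, hk⟩) hn
        · by_cases a1 : A 1 = true
          · refine ⟨1, fun k hk => ?_⟩
            fin_cases k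
            · exact absurd hk a0
            · rfl
            · exact absurd (Or.inr ⟨Or.inr a1, hk⟩) hn
          · refine ⟨2, fun k hk => ?_⟩
            fin_cases k
            · exact absurd hk a0
            · exact absurd hk a1
            · rfl
      obtain ⟨c, hc'⟩ := this
      exact hc ⟨c, LatticeTerm.bool_mono p (fun i hi => by simpa using hc' i hi) h4⟩
    · rintro (⟨a, b⟩ | ⟨a | a, b⟩)
      · exact h1 A a b
      · exact h2 A a b
      · exact h3 A a b

theorem not_common {r : ℕ} {t : LatticeTerm r} (ht : ¬ Common t) (hS : ClG (t.value le) S) :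
    Cl3 (md le) S ∨ Cl2 (mx le) S := by
  unfold Common at ht
  push Not at ht
  obtain ⟨A, B, C, hA, hB, hC, hn⟩ := ht
  let j : Fin r → Fin 3 := fun i => if A i = false then 0 else if B i = false then 1 else 2
  have j0 : ∀ i, A i = true → j i ≠ 0 := fun i hi => by
    show (if A i = false then (0 : Fin 3) else if B i = false then 1 else 2) ≠ 0
    rw [if_neg (by rw [hi]; decide)]
    split_ifs <;> decide
  have j1 : ∀ i, B i = true → j i ≠ 1 := fun i hi => by
    show (if A i = false then (0 : Fin 3) else if B i = false then 1 else 2) ≠ 1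
    split_ifs with h1 h2
    · decide
    · rw [hi] at h2
      exact absurd h2 (by decide)
    · decide
  have j2 : ∀ i, C i = true → j i ≠ 2 := fun i hi => by
    show (if A i = false then (0 : Fin 3) else if B i = false then 1 else 2) ≠ 2
    split_ifs with h1 h2
    · decide
    · decide
    · exact absurd hi (hn i (by simpa using h1) (by simpa using h2))
  refine above h (p := t.rename j) (fun X x0 x1 => ?_) (fun X x0 x1 => ?_) (fun X x0 x1 => ?_)
    (cl_rename j hS)
  · rw [LatticeTerm.bool_rename]
    refine LatticeTerm.bool_mono t (fun i hi => ?_) hC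
    have := j2 i hi
    generalize j i = k at this
    fin_cases k
    · exact x0
    · exact x1
    · exact absurd rfl this
  · rw [LatticeTerm.bool_rename]
    refine LatticeTerm.bool_mono t (fun i hi => ?_) hB
    have := j1 i hi
    generalize j i = k at this
    fin_cases k
    · exact x0
    · exact absurd rfl this
    · exact x1
  · rw [LatticeTerm.bool_rename]
    refine LatticeTerm.bool_mono t (fun i hi => ?_) hA
    have := j0 i hi
    generalize j i = k at this
    fin_cases k
    · exact absurd rfl this
    · exact x0
    · exact x1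

/-- closed relations and the opposite order -/
theorem cl_op {r : ℕ} {t : LatticeTerm r} (hS : ClG (t.value le) S) :
    ClG (t.dual.value (op le)) S := by
  have e : t.dual.value (op le) = t.value le := funext fun x => LatticeTerm.value_dual h t x
  rw [e]
  exact hS

theorem op_md (hS : Cl3 (md (op le)) S) : Cl3 (md le) S := by
  intro a b c ha hb hc
  have := hS a b c ha hb hc
  simp only [md_op h] at this
  exact this

theorem op_mx (hS : Cl2 (mx (op le)) S) : Cl2 (mn le) S := by
  intro a b ha hb
  have := hS a b ha hb
  simp only [mx_op h] at this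
  exact this

theorem not_cocommon {r : ℕ} {t : LatticeTerm r} (ht : ¬ CoCommon t)
    (hS : ClG (t.value le) S) : Cl3 (md le) S ∨ Cl2 (mn le) S :=
  (not_common h.op (fun h1 => ht (co_dual h1)) (cl_op h hS)).imp (op_md h) (op_mx h)

/-- the general case -/
theorem gen_md {r r' : ℕ} {t : LatticeTerm r} {t' : LatticeTerm r'} (h1 : ¬ Common t)
    (h2 : ¬ CoCommon t') (hS : ClG (t.value le) S) (hS' : ClG (t'.value le) S) :
    Cl3 (md le) S := by
  rcases not_common h h1 hS with h3 | h3
  · exact h3
  rcases not_cocommon h h2 hS' with h4 | h4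
  · exact h4
  exact md_of h4 h3

end main

end Pool.Agent.H2.LP
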