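import Mathlib.Data.Fintype.Pi
import Mathlib.Data.Fintype.BigOperators
import Pool.Agent.H2.LP.Trm

set_option autoImplicit false

/-!
Relations of arity at most two which are closed under the values of lattice terms; closed relations
for the terms in which any three true points have a common coordinate, and for meets of variables.
-/

namespace Pool.Agent.H2.LP

/-- a meet of variables -/
def Meet {r : ℕ} (t : LatticeTerm r) : Prop :=
  ∃ I : Finset (Fin r), ∀ A : Fin r → Bool, t.bool A = true ↔ ∀ i ∈ I, A i = true

/-- a join of variables -/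
def Join {r : ℕ} (t : LatticeTerm r) : Prop :=
  ∃ I : Finset (Fin r), ∀ A : Fin r → Bool, t.bool A = true ↔ ∃ i ∈ I, A i = true

theorem meet_of {r : ℕ} {t : LatticeTerm r}
    (h : ∀ A B : Fin r → Bool, t.bool A = true → t.bool B = true →
      t.bool (fun i => A i && B i) = true) : Meet t := by
  classical
  have key : ∀ F : Finset (Fin r → Bool), (∀ A ∈ F, t.bool A = true) →
      ∃ C : Fin r → Bool, t.bool C = true ∧ ∀ A ∈ F, ∀ i, C i = true → A i = true := by
    intro F
    induction F using Finset.induction_on with
    | empty =>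
      intro _
      exact ⟨_, t.bool_true, fun A hA => absurd hA (Finset.notMem_empty A)⟩
    | insert A F _ ih =>
      intro hF
      obtain ⟨C, h1, h2⟩ := ih fun B hB => hF B (Finset.mem_insert_of_mem hB)
      refine ⟨_, h A C (hF A (Finset.mem_insert_self A F)) h1, fun B hB i hi => ?_⟩
      have hi' : (A i && C i) = true := hi
      rw [Bool.and_eq_true] at hi'
      rcases Finset.mem_insert.1 hB with rfl | hB
      · exact hi'.1
      · exact h2 B hB i hi'.2
  obtain ⟨C, h1, h2⟩ := key (Finset.univ.filter fun A => t.bool A = true)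
    fun A hA => (Finset.mem_filter.1 hA).2
  refine ⟨Finset.univ.filter fun i => C i = true, fun A => ⟨fun hA i hi => ?_, fun hA => ?_⟩⟩
  · exact h2 A (Finset.mem_filter.2 ⟨Finset.mem_univ A, hA⟩) i (Finset.mem_filter.1 hi).2
  · exact LatticeTerm.bool_mono t (fun i hi => hA i (Finset.mem_filter.2
      ⟨Finset.mem_univ i, hi⟩)) h1

theorem join_dual {r : ℕ} {t : LatticeTerm r} (h : Meet t.dual) : Join t := by
  obtain ⟨I, hI⟩ := h
  refine ⟨I, fun A => ?_⟩
  have h1 := hI fun i => !(A i)
  rw [LatticeTerm.bool_dual] at h1
  have e : (fun i => !(!(A i))) = A := funext fun i => Bool.not_not _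
  rw [e] at h1
  constructor
  · intro hA
    by_contra hn
    push Not at hn
    have h2 := h1.2 fun i hi => by
      have := hn i hi
      simpa using this
    rw [hA] at h2
    exact absurd h2 (by decide)
  · rintro ⟨i, hi, hA⟩
    by_contra hn
    have h2 := h1.1 (by simpa using hn) i hi
    rw [hA] at h2
    exact absurd h2 (by decide)

section main

variable {le : ℕ → ℕ → Prop} (h : Lin le) {n : ℕ} {S : (Fin n → ℕ) → Prop}

/-- the term `x ∧ (y ∨ z)` -/
def gT : LatticeTerm 3 := .inf (.var 0) (.sup (.var 1) (.var 2))

include h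

/-- relations of arity at most two -/
theorem small (hn : n ≤ 2) (hS : ClG (gT.value le) S) : Cl3 (md le) S := by
  intro a b c ha hb hc
  let s : Fin 3 → Fin n → ℕ := ![a, b, c]
  have hs : ∀ p, S (s p) := fun p => by
    fin_cases p
    · exact ha
    · exact hb
    · exact hc
  have key : ∃ p : Fin 3, ∀ k, ∃ p', p' ≠ p ∧ le (s p' k) (s p k) := by
    by_contra hcon
    push Not at hcon
    choose f hf using hcon
    have hinj : Function.Injective f := by
      intro p p' hpp
      by_contra hne
      have h1 := hf p p' (Ne.symm hne)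
      have h2 := hf p' p hne
      rw [← hpp] at h2
      rcases h.total (s p' (f p)) (s p (f p)) with h3 | h3
      · exact h1 h3
      · exact h2 h3
    have := Fintype.card_le_of_injective f hinj
    simp only [Fintype.card_fin] at this
    omega
  obtain ⟨p, hp⟩ := key
  have fin : ∀ j : Fin 3 → Fin 3, (∀ k, gT.value le (fun i => s (j i) k) =
      md le (a k) (b k) (c k)) → S fun k => md le (a k) (b k) (c k) := by
    intro j hj
    have h1 := hS (fun i => s (j i)) fun i => hs (j i)
    have e : (fun k => gT.value le fun i => s (j i) k) = fun k => md le (a k) (b k) (c k) :=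
      funext hj
    rwa [e] at h1
  have g : ∀ (x : Fin 3 → ℕ) (w : ℕ), le w (gT.value le x) ↔
      le w (x 0) ∧ (le w (x 1) ∨ le w (x 2)) := by
    intro x w
    show le w (mn le _ (mx le _ _)) ↔ _
    rw [le_mn h, le_mx h]
    exact Iff.rfl
  fin_cases p
  · refine fin ![0, 1, 2] fun k => eq_of h fun w => ?_
    rw [g, le_md h]
    show le w (a k) ∧ (le w (b k) ∨ le w (c k)) ↔ _
    obtain ⟨p', h1, h2⟩ := hp k
    fin_cases p'
    · exact absurd rfl h1
    · have h3 : le (b k) (a k) := h2
      have h4 : le w (b k) → le w (a k) := fun h5 => h.trans _ _ _ h5 h3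
      tauto
    · have h3 : le (c k) (a k) := h2
      have h4 : le w (c k) → le w (a k) := fun h5 => h.trans _ _ _ h5 h3
      tauto
  · refine fin ![1, 0, 2] fun k => eq_of h fun w => ?_
    rw [g, le_md h]
    show le w (b k) ∧ (le w (a k) ∨ le w (c k)) ↔ _
    obtain ⟨p', h1, h2⟩ := hp k
    fin_cases p'
    · have h3 : le (a k) (b k) := h2
      have h4 : le w (a k) → le w (b k) := fun h5 => h.trans _ _ _ h5 h3
      tauto
    · exact absurd rfl h1
    · have h3 : le (c k) (b k) := h2
      have h4 : le w (c k) → le w (b k) := fun h5 => h.trans _ _ _ h5 h3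
      tauto
  · refine fin ![2, 0, 1] fun k => eq_of h fun w => ?_
    rw [g, le_md h]
    show le w (c k) ∧ (le w (a k) ∨ le w (b k)) ↔ _
    obtain ⟨p', h1, h2⟩ := hp k
    fin_cases p'
    · have h3 : le (a k) (c k) := h2
      have h4 : le w (a k) → le w (c k) := fun h5 => h.trans _ _ _ h5 h3
      tauto
    · have h3 : le (b k) (c k) := h2
      have h4 : le w (b k) → le w (c k) := fun h5 => h.trans _ _ _ h5 h3
      tauto
    · exact absurd rfl h1

theorem not_meet {r : ℕ} {t : LatticeTerm r} (hn : n ≤ 2) (ht : ¬ Meet t)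
    (hS : ClG (t.value le) S) : Cl3 (md le) S ∨ Cl2 (mx le) S := by
  by_cases hc : Common t
  swap
  · exact not_common h hc hS
  left
  have h2 : ∀ A B : Fin r → Bool, t.bool A = true → t.bool B = true →
      ∃ i, A i = true ∧ B i = true := fun A B hA hB => by
    obtain ⟨i, h1, h2, -⟩ := hc A B B hA hB hB
    exact ⟨i, h1, h2⟩
  have h3 : ∃ A B : Fin r → Bool, t.bool A = true ∧ t.bool B = true ∧
      t.bool (fun i => A i && B i) = false := by
    by_contra hcon
    push Not at hcon
    exact ht (meet_of fun A B hA hB => by simpa using hcon A B hA hB)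
  obtain ⟨A, B, hA, hB, hAB⟩ := h3
  let j : Fin r → Fin 3 := fun i =>
    if (A i && B i) = true then 0 else if A i = true then 1 else 2
  have hj0 : ∀ i, j i = 0 → (A i && B i) = true := fun i hi => by
    by_contra hh
    have : j i = if A i = true then 1 else 2 := if_neg hh
    rw [this] at hi
    split_ifs at hi <;> exact absurd hi (by decide)
  have hj1 : ∀ i, j i = 1 → A i = true ∧ B i = false := fun i hi => by
    by_cases hh : (A i && B i) = true
    · have : j i = 0 := if_pos hh
      rw [this] at hi
      exact absurd hi (by decide)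
    · have e1 : j i = if A i = true then 1 else 2 := if_neg hh
      by_cases hA : A i = true
      · refine ⟨hA, ?_⟩
        rw [hA] at hh
        simpa using hh
      · rw [e1, if_neg hA] at hi
        exact absurd hi (by decide)
  have hj2 : ∀ i, j i = 2 → A i = false := fun i hi => by
    by_contra hA
    have hA' : A i = true := by simpa using hA
    have : j i = 0 ∨ j i = 1 := by
      by_cases hh : (A i && B i) = true
      · exact Or.inl (if_pos hh)
      · right
        show (if (A i && B i) = true then (0 : Fin 3) else if A i = true then 1 else 2) = 1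
        rw [if_neg hh, if_pos hA']
    rcases this with h4 | h4
    · rw [h4] at hi
      exact absurd hi (by decide)
    · rw [h4] at hi
      exact absurd hi (by decide)
  have hjA : ∀ i, A i = true → j i = 0 ∨ j i = 1 := fun i hi => by
    have : j i ≠ 2 := fun h4 => by
      rw [hj2 i h4] at hi
      exact absurd hi (by decide)
    generalize j i = k at this
    fin_cases k
    · exact Or.inl rfl
    · exact Or.inr rfl
    · exact absurd rfl this
  have hjB : ∀ i, B i = true → j i = 0 ∨ j i = 2 := fun i hi => by
    have : j i ≠ 1 := fun h4 => by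
      rw [(hj1 i h4).2] at hi
      exact absurd hi (by decide)
    generalize j i = k at this
    fin_cases k
    · exact Or.inl rfl
    · exact absurd rfl this
    · exact Or.inr rfl
  have hp := cl_rename j hS
  -- the values
  have v1 : ∀ X : Fin 3 → Bool, X 0 = true → X 1 = true → (t.rename j).bool X = true := by
    intro X x0 x1
    rw [LatticeTerm.bool_rename]
    refine LatticeTerm.bool_mono t (fun i hi => ?_) hA
    rcases hjA i hi with h4 | h4
    · rw [h4]
      exact x0
    · rw [h4]
      exact x1
  have v2 : ∀ X : Fin 3 → Bool, X 0 = true → X 2 = true → (t.rename j).bool X = true := by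
    intro X x0 x1
    rw [LatticeTerm.bool_rename]
    refine LatticeTerm.bool_mono t (fun i hi => ?_) hB
    rcases hjB i hi with h4 | h4
    · rw [h4]
      exact x0
    · rw [h4]
      exact x1
  have w0 : ∀ X : Fin 3 → Bool, X 1 ≠ true → X 2 ≠ true → (t.rename j).bool X = false := by
    intro X x1 x2
    rw [LatticeTerm.bool_rename]
    by_contra hcon
    have h4 := LatticeTerm.bool_mono t (A := fun i => X (j i)) (B := fun i => A i && B i)
      (fun i hi => by
      refine hj0 i ?_
      generalize j i = k at hi
      fin_cases k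
      · rfl
      · exact absurd hi x1
      · exact absurd hi x2) (by simpa using hcon)
    rw [h4] at hAB
    exact absurd hAB (by decide)
  have w1 : ∀ X : Fin 3 → Bool, X 0 ≠ true → X 2 ≠ true → (t.rename j).bool X = false := by
    intro X x1 x2
    rw [LatticeTerm.bool_rename]
    by_contra hcon
    obtain ⟨i, h4, h5⟩ := h2 _ B (by simpa using hcon) hB
    rcases hjB i h5 with h6 | h6
    · rw [h6] at h4
      exact x1 h4
    · rw [h6] at h4
      exact x2 h4
  have w2 : ∀ X : Fin 3 → Bool, X 0 ≠ true → X 1 ≠ true → (t.rename j).bool X = false := by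
    intro X x1 x2
    rw [LatticeTerm.bool_rename]
    by_contra hcon
    obtain ⟨i, h4, h5⟩ := h2 _ A (by simpa using hcon) hA
    rcases hjA i h5 with h6 | h6
    · rw [h6] at h4
      exact x1 h4
    · rw [h6] at h4
      exact x2 h4
  by_cases hb : ∃ X : Fin 3 → Bool, X 0 ≠ true ∧ (t.rename j).bool X = true
  · obtain ⟨Y, y0, hY⟩ := hb
    have v3 : ∀ X : Fin 3 → Bool, X 1 = true → X 2 = true → (t.rename j).bool X = true := by
      intro X x1 x2
      refine LatticeTerm.bool_mono _ (fun i hi => ?_) hY
      fin_cases i
      · exact absurd hi y0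
      · exact x1
      · exact x2
    refine cl_md h (t := t.rename j) (fun X => ?_) hp
    rw [bool_mdT]
    constructor
    · intro h4
      by_contra hcon
      have k0 := fun x1 x2 => w0 X x1 x2
      have k1 := fun x1 x2 => w1 X x1 x2
      have k2 := fun x1 x2 => w2 X x1 x2
      rw [h4] at k0 k1 k2
      have k0' : ¬ (X 1 ≠ true ∧ X 2 ≠ true) := fun hh => absurd (k0 hh.1 hh.2) (by decide)
      have k1' : ¬ (X 0 ≠ true ∧ X 2 ≠ true) := fun hh => absurd (k1 hh.1 hh.2) (by decide)
      have k2' : ¬ (X 0 ≠ true ∧ X 1 ≠ true) := fun hh => absurd (k2 hh.1 hh.2) (by decide)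
      tauto
    · rintro (⟨a, b⟩ | ⟨a | a, b⟩)
      · exact v1 X a b
      · exact v2 X a b
      · exact v3 X a b
  · refine small h hn (cl_congr h (s := t.rename j) (fun X => ?_) hp)
    have e : gT.bool X = (X 0 && (X 1 || X 2)) := rfl
    rw [e, Bool.and_eq_true, Bool.or_eq_true]
    constructor
    · intro h4
      by_contra hcon
      have k0 := fun x1 x2 => w0 X x1 x2
      rw [h4] at k0
      have k0' : ¬ (X 1 ≠ true ∧ X 2 ≠ true) := fun hh => absurd (k0 hh.1 hh.2) (by decide)
      have k1 : ¬ (X 0 ≠ true) := fun hh => hb ⟨X, hh, h4⟩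
      tauto
    · rintro ⟨a, b | b⟩
      · exact v1 X a b
      · exact v2 X a b

theorem not_join {r : ℕ} {t : LatticeTerm r} (hn : n ≤ 2) (ht : ¬ Join t)
    (hS : ClG (t.value le) S) : Cl3 (md le) S ∨ Cl2 (mn le) S :=
  (not_meet h.op hn (fun h1 => ht (join_dual h1)) (cl_op h hS)).imp (op_md h) (op_mx h)

/-- relations of arity at most two -/
theorem bin_md {r r' : ℕ} {t : LatticeTerm r} {t' : LatticeTerm r'} (hn : n ≤ 2)
    (h1 : ¬ Meet t) (h2 : ¬ Join t') (hS : ClG (t.value le) S) (hS' : ClG (t'.value le) S) :
    Cl3 (md le) S := by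
  rcases not_meet h hn h1 hS with h3 | h3
  · exact h3
  rcases not_join h hn h2 hS' with h4 | h4
  · exact h4
  exact md_of h4 h3

/-! ### closed relations -/

/-- the order is closed under all terms -/
theorem cl_le {r : ℕ} (t : LatticeTerm r) : ClG (t.value le) fun u : Fin 2 → ℕ =>
    le (u 0) (u 1) := by
  classical
  intro s hs
  show le (t.value le fun p => s p 0) (t.value le fun p => s p 1)
  rw [LatticeTerm.le_value h]
  have h1 := (LatticeTerm.le_value h t (fun p => s p 0) (t.value le fun p => s p 0)).1
    (h.refl _)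
  refine LatticeTerm.bool_mono t (fun i hi => ?_) h1
  rw [decide_eq_true_iff] at hi ⊢
  exact h.trans _ _ _ hi (hs i)

/-- downward closed ternary relations are closed if any three true points have a common
coordinate -/
theorem cl_down {r : ℕ} {t : LatticeTerm r} (ht : Common t) {R : (Fin 3 → ℕ) → Prop}
    (hR : ∀ u v : Fin 3 → ℕ, R v → (∀ k, le (u k) (v k)) → R u) : ClG (t.value le) R := by
  classical
  intro s hs
  have h1 : ∀ k : Fin 3, t.bool (fun i => decide (le (t.value le fun p => s p k) (s i k))) =
      true := fun k => (LatticeTerm.le_value h t (fun p => s p k) _).1 (h.refl _)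
  obtain ⟨i, h2, h3, h4⟩ := ht _ _ _ (h1 0) (h1 1) (h1 2)
  refine hR _ (s i) (hs i) fun k => ?_
  rw [decide_eq_true_iff] at h2 h3 h4
  fin_cases k
  · exact h2
  · exact h3
  · exact h4

/-- relations closed under the minimum are closed under meets of variables -/
theorem cl_meet {r : ℕ} {t : LatticeTerm r} (ht : Meet t) (hS : Cl2 (mn le) S) :
    ClG (t.value le) S := by
  classical
  obtain ⟨I, hI⟩ := ht
  intro s hs
  have hne : I.Nonempty := by
    by_contra hcon
    rw [Finset.not_nonempty_iff_eq_empty] at hcon
    have h1 := (hI fun _ => false).2 fun i hi => by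
      rw [hcon] at hi
      exact absurd hi (Finset.notMem_empty i)
    rw [LatticeTerm.bool_false] at h1
    exact absurd h1 (by decide)
  have key : ∀ J : Finset (Fin r), J.Nonempty → ∃ u, S u ∧
      ∀ k w, le w (u k) ↔ ∀ i ∈ J, le w (s i k) := by
    intro J hJ
    induction hJ using Finset.Nonempty.cons_induction with
    | singleton i =>
      refine ⟨s i, hs i, fun k w => ?_⟩
      simp
    | cons i J hi hJ ih =>
      obtain ⟨u, h1, h2⟩ := ih
      refine ⟨_, hS (s i) u (hs i) h1, fun k w => ?_⟩
      rw [le_mn h, h2]
      simp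
  obtain ⟨u, h1, h2⟩ := key I hne
  have e : (fun k => t.value le fun p => s p k) = u := by
    funext k
    refine eq_of h fun w => ?_
    rw [LatticeTerm.le_value h, hI, h2]
    simp
  rw [e]
  exact h1

theorem cl_join {r : ℕ} {t : LatticeTerm r} (ht : Join t) (hS : Cl2 (mx le) S) :
    ClG (t.value le) S := by
  have h1 : Meet t.dual := by
    obtain ⟨I, hI⟩ := ht
    refine ⟨I, fun A => ?_⟩
    rw [LatticeTerm.bool_dual]
    have h2 := hI fun i => !(A i)
    constructor
    · intro h3 i hi
      by_contra hn
      have h4 := h2.2 ⟨i, hi, by simpa using hn⟩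
      rw [h4] at h3
      exact absurd h3 (by decide)
    · intro h3
      by_contra hn
      have h4 : (t.bool fun i => !(A i)) = true := by simpa using hn
      obtain ⟨i, hi, h5⟩ := h2.1 h4
      rw [h3 i hi] at h5
      exact absurd h5 (by decide)
  have h2 : Cl2 (mn (op le)) S := by
    intro a b ha hb
    have := hS a b ha hb
    simp only [← mn_op h] at this
    exact this
  have h3 := cl_meet h.op h1 h2
  have e : t.dual.value (op le) = t.value le := funext fun x => LatticeTerm.value_dual h t x
  rwa [e] at h3

theorem cl_up {r : ℕ} {t : LatticeTerm r} (ht : CoCommon t) {R : (Fin 3 → ℕ) → Prop}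
    (hR : ∀ u v : Fin 3 → ℕ, R v → (∀ k, le (v k) (u k)) → R u) : ClG (t.value le) R := by
  have h3 := cl_down h.op (dual_co ht) (R := R) hR
  have e : t.dual.value (op le) = t.value le := funext fun x => LatticeTerm.value_dual h t x
  rwa [e] at h3

end main

end Pool.Agent.H2.LP
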