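import Mathlib.Logic.Equiv.Basic
import Mathlib.Data.Fintype.Card
import Mathlib.Tactic.FinCases

set_option autoImplicit false

/-!
Three copies of a set with two linear orders, and the downward closed ternary relation generated by
the triples of the copies of one element.
-/

namespace Pool.Agent.H2.LP

variable {A : Type} {l k : A → A → Prop}

/-- strict linear orders -/
structure Sl (l : A → A → Prop) : Prop where
  irr : ∀ a, ¬ l a a
  tr : ∀ a b c, l a b → l b c → l a c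
  tot : ∀ a b, a = b ∨ l a b ∨ l b a

/-- the order of the three copies: the first order reversed, the first order, the second order -/
def cle (l k : A → A → Prop) (x y : Fin 3 × A) : Prop :=
  x.1 < y.1 ∨ (x.1 = y.1 ∧ (x.2 = y.2 ∨ (x.1 = 0 ∧ l y.2 x.2) ∨ (x.1 = 1 ∧ l x.2 y.2) ∨
    (x.1 = 2 ∧ k x.2 y.2)))

/-- the ternary relation -/
def cr (l k : A → A → Prop) (x y z : Fin 3 × A) : Prop :=
  ∃ a, cle l k x (1, a) ∧ cle l k y (2, a) ∧ cle l k z (0, a)

theorem cle0 (a b : A) : cle l k (0, a) (0, b) ↔ a = b ∨ l b a := by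
  unfold cle
  simp

theorem cle1 (a b : A) : cle l k (1, a) (1, b) ↔ a = b ∨ l a b := by
  unfold cle
  simp

theorem cle2 (a b : A) : cle l k (2, a) (2, b) ↔ a = b ∨ k a b := by
  unfold cle
  simp

theorem cle_lt {p q : Fin 3} (h : p < q) (a b : A) : cle l k (p, a) (q, b) := Or.inl h

theorem cle_gt {p q : Fin 3} (h : q < p) (a b : A) : ¬ cle l k (p, a) (q, b) := by
  rintro (h1 | ⟨h1, -⟩)
  · exact lt_asymm h h1
  · have h2 : p = q := h1
    rw [h2] at h
    exact lt_irrefl _ h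

theorem cle_refl (x : Fin 3 × A) : cle l k x x := Or.inr ⟨rfl, Or.inl rfl⟩

section lin

variable (hl : Sl l) (hk : Sl k)

include hl hk

theorem cle_part (p : Fin 3) (a b : A) : (cle l k (p, a) (p, b) → cle l k (p, b) (p, a) → a = b) ∧
    (cle l k (p, a) (p, b) ∨ cle l k (p, b) (p, a)) := by
  fin_cases p
  · constructor
    · intro h1 h2
      rcases (cle0 a b).1 h1 with h3 | h3
      · exact h3
      · rcases (cle0 b a).1 h2 with h4 | h4
        · exact h4.symm
        · exact absurd (hl.tr _ _ _ h3 h4) (hl.irr _)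
    · rcases hl.tot a b with h1 | h1 | h1
      · exact Or.inl ((cle0 a b).2 (Or.inl h1))
      · exact Or.inr ((cle0 b a).2 (Or.inr h1))
      · exact Or.inl ((cle0 a b).2 (Or.inr h1))
  · constructor
    · intro h1 h2
      rcases (cle1 a b).1 h1 with h3 | h3
      · exact h3
      · rcases (cle1 b a).1 h2 with h4 | h4
        · exact h4.symm
        · exact absurd (hl.tr _ _ _ h3 h4) (hl.irr _)
    · rcases hl.tot a b with h1 | h1 | h1
      · exact Or.inl ((cle1 a b).2 (Or.inl h1))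
      · exact Or.inl ((cle1 a b).2 (Or.inr h1))
      · exact Or.inr ((cle1 b a).2 (Or.inr h1))
  · constructor
    · intro h1 h2
      rcases (cle2 a b).1 h1 with h3 | h3
      · exact h3
      · rcases (cle2 b a).1 h2 with h4 | h4
        · exact h4.symm
        · exact absurd (hk.tr _ _ _ h3 h4) (hk.irr _)
    · rcases hk.tot a b with h1 | h1 | h1
      · exact Or.inl ((cle2 a b).2 (Or.inl h1))
      · exact Or.inl ((cle2 a b).2 (Or.inr h1))
      · exact Or.inr ((cle2 b a).2 (Or.inr h1))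

theorem cle_anti (x y : Fin 3 × A) (h1 : cle l k x y) (h2 : cle l k y x) : x = y := by
  obtain ⟨p, a⟩ := x
  obtain ⟨q, b⟩ := y
  rcases lt_trichotomy p q with h3 | h3 | h3
  · exact absurd h2 (cle_gt h3 _ _)
  · subst h3
    rw [(cle_part hl hk p a b).1 h1 h2]
  · exact absurd h1 (cle_gt h3 _ _)

theorem cle_total (x y : Fin 3 × A) : cle l k x y ∨ cle l k y x := by
  obtain ⟨p, a⟩ := x
  obtain ⟨q, b⟩ := y
  rcases lt_trichotomy p q with h3 | h3 | h3
  · exact Or.inl (cle_lt h3 _ _)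
  · subst h3
    exact (cle_part hl hk p a b).2
  · exact Or.inr (cle_lt h3 _ _)

theorem cle_trans (x y z : Fin 3 × A) (h1 : cle l k x y) (h2 : cle l k y z) : cle l k x z := by
  obtain ⟨p, a⟩ := x
  obtain ⟨q, b⟩ := y
  obtain ⟨r, c⟩ := z
  rcases h1 with h1 | ⟨h1, h3⟩
  · rcases h2 with h2 | ⟨h2, -⟩
    · exact Or.inl (lt_trans h1 h2)
    · have h2' : q = r := h2
      subst h2'
      exact Or.inl h1
  · have h1' : p = q := h1
    subst h1'
    rcases h2 with h2 | ⟨h2, h4⟩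
    · exact Or.inl h2
    · have h2' : p = r := h2
      subst h2'
      have g1 : cle l k (p, a) (p, b) := Or.inr ⟨rfl, h3⟩
      have g2 : cle l k (p, b) (p, c) := Or.inr ⟨rfl, h4⟩
      fin_cases p
      · refine (cle0 a c).2 ?_
        rcases (cle0 a b).1 g1 with rfl | e1
        · exact (cle0 _ c).1 g2
        · rcases (cle0 b c).1 g2 with rfl | e2
          · exact Or.inr e1
          · exact Or.inr (hl.tr _ _ _ e2 e1)
      · refine (cle1 a c).2 ?_
        rcases (cle1 a b).1 g1 with rfl | e1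
        · exact (cle1 _ c).1 g2
        · rcases (cle1 b c).1 g2 with rfl | e2
          · exact Or.inr e1
          · exact Or.inr (hl.tr _ _ _ e1 e2)
      · refine (cle2 a c).2 ?_
        rcases (cle2 a b).1 g1 with rfl | e1
        · exact (cle2 _ c).1 g2
        · rcases (cle2 b c).1 g2 with rfl | e2
          · exact Or.inr e1
          · exact Or.inr (hk.tr _ _ _ e1 e2)

/-- the maximal triples -/
theorem cmax (x y z : Fin 3 × A) : (cr l k x y z ∧ ∀ x' y' z', cr l k x' y' z' → cle l k x x' →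
    cle l k y y' → cle l k z z' → x' = x ∧ y' = y ∧ z' = z) ↔
    ∃ a, x = (1, a) ∧ y = (2, a) ∧ z = (0, a) := by
  constructor
  · rintro ⟨⟨a, h1, h2, h3⟩, h4⟩
    obtain ⟨e1, e2, e3⟩ := h4 (1, a) (2, a) (0, a)
      ⟨a, cle_refl _, cle_refl _, cle_refl _⟩ h1 h2 h3
    exact ⟨a, e1.symm, e2.symm, e3.symm⟩
  · rintro ⟨a, rfl, rfl, rfl⟩
    refine ⟨⟨a, cle_refl _, cle_refl _, cle_refl _⟩, ?_⟩
    rintro x y z ⟨b, h1, h2, h3⟩ h4 h5 h6
    have e1 := (cle1 a b).1 (cle_trans hl hk _ _ _ h4 h1)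
    have e2 := (cle0 a b).1 (cle_trans hl hk _ _ _ h6 h3)
    have e : a = b := by
      rcases e1 with e1 | e1
      · exact e1
      · rcases e2 with e2 | e2
        · exact e2
        · exact absurd (hl.tr _ _ _ e1 e2) (hl.irr _)
    subst e
    exact ⟨cle_anti hl hk _ _ h1 h4, cle_anti hl hk _ _ h2 h5, cle_anti hl hk _ _ h3 h6⟩

end lin

/-- isomorphic pairs of orders -/
theorem cle_map {B : Type} {l' k' : B → B → Prop} (π : A ≃ B) (hl : ∀ a b, l' (π a) (π b) ↔ l a b)
    (hk : ∀ a b, k' (π a) (π b) ↔ k a b) (x y : Fin 3 × A) :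
    cle l' k' (x.1, π x.2) (y.1, π y.2) ↔ cle l k x y := by
  unfold cle
  simp only [hl, hk, π.injective.eq_iff]

theorem cr_map {B : Type} {l' k' : B → B → Prop} (π : A ≃ B) (hl : ∀ a b, l' (π a) (π b) ↔ l a b)
    (hk : ∀ a b, k' (π a) (π b) ↔ k a b) (x y z : Fin 3 × A) :
    cr l' k' (x.1, π x.2) (y.1, π y.2) (z.1, π z.2) ↔ cr l k x y z := by
  unfold cr
  constructor
  · rintro ⟨b, h1, h2, h3⟩
    obtain ⟨a, rfl⟩ := π.surjective b
    exact ⟨a, (cle_map π hl hk x (1, a)).1 h1, (cle_map π hl hk y (2, a)).1 h2,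
      (cle_map π hl hk z (0, a)).1 h3⟩
  · rintro ⟨a, h1, h2, h3⟩
    exact ⟨π a, (cle_map π hl hk x (1, a)).2 h1, (cle_map π hl hk y (2, a)).2 h2,
      (cle_map π hl hk z (0, a)).2 h3⟩

/-! ### structures on the natural numbers -/

/-- the strict part -/
def lt (r : ℕ → ℕ → Prop) (u v : ℕ) : Prop := r u v ∧ u ≠ v

/-- the maximal triples -/
def Mx3 (r : ℕ → ℕ → Prop) (R : ℕ → ℕ → ℕ → Prop) (u v w : ℕ) : Prop :=
  R u v w ∧ ∀ u' v' w', R u' v' w' → r u u' → r v v' → r w w' → u' = u ∧ v' = v ∧ w' = w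

/-- the first coordinates -/
def P1 (r : ℕ → ℕ → Prop) (R : ℕ → ℕ → ℕ → Prop) (u : ℕ) : Prop := ∃ v w, Mx3 r R u v w

/-- the second order -/
def k2 (r : ℕ → ℕ → Prop) (R : ℕ → ℕ → ℕ → Prop) (u u' : ℕ) : Prop :=
  ∃ v w v' w', Mx3 r R u v w ∧ Mx3 r R u' v' w' ∧ lt r v v'

/-- the axioms for two triples -/
def Pr (r : ℕ → ℕ → Prop) (a b c a' b' c' : ℕ) : Prop :=
  lt r c a' ∧ lt r a b' ∧ lt r c b' ∧ (a = a' ↔ b = b') ∧ (a = a' ↔ c = c') ∧ (r c c' ↔ r a' a)

/-- the axioms -/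
structure W3 (r : ℕ → ℕ → Prop) (R : ℕ → ℕ → ℕ → Prop) : Prop where
  refl : ∀ u, r u u
  anti : ∀ u v, r u v → r v u → u = v
  trans : ∀ u v w, r u v → r v w → r u w
  total : ∀ u v, r u v ∨ r v u
  cov : ∀ u, ∃ a b c, Mx3 r R a b c ∧ (u = a ∨ u = b ∨ u = c)
  two : ∀ a b c, Mx3 r R a b c → ∀ a' b' c', Mx3 r R a' b' c' → Pr r a b c a' b' c'
  gen : ∀ u v w, R u v w ↔ ∃ a b c, Mx3 r R a b c ∧ r u a ∧ r v b ∧ r w c

/-- representation by the canonical structure -/
def Rep {A : Type} (l k : A → A → Prop) (r : ℕ → ℕ → Prop) (R : ℕ → ℕ → ℕ → Prop)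
    (θ : ℕ ≃ Fin 3 × A) : Prop :=
  (∀ u v, r u v ↔ cle l k (θ u) (θ v)) ∧ ∀ u v w, R u v w ↔ cr l k (θ u) (θ v) (θ w)

section rep

variable {r : ℕ → ℕ → Prop} {R : ℕ → ℕ → ℕ → Prop}

theorem rep_max {θ : ℕ ≃ Fin 3 × A} (hl : Sl l) (hk : Sl k) (h : Rep l k r R θ) (u v w : ℕ) :
    Mx3 r R u v w ↔ ∃ a, θ u = (1, a) ∧ θ v = (2, a) ∧ θ w = (0, a) := by
  rw [← cmax hl hk]
  unfold Mx3
  rw [h.2]
  constructor
  · rintro ⟨h1, h2⟩
    refine ⟨h1, fun x y z h3 h4 h5 h6 => ?_⟩
    obtain ⟨u', rfl⟩ := θ.surjective x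
    obtain ⟨v', rfl⟩ := θ.surjective y
    obtain ⟨w', rfl⟩ := θ.surjective z
    obtain ⟨e1, e2, e3⟩ := h2 u' v' w' ((h.2 _ _ _).2 h3) ((h.1 _ _).2 h4) ((h.1 _ _).2 h5)
      ((h.1 _ _).2 h6)
    rw [e1, e2, e3]
    exact ⟨rfl, rfl, rfl⟩
  · rintro ⟨h1, h2⟩
    refine ⟨h1, fun u' v' w' h3 h4 h5 h6 => ?_⟩
    obtain ⟨e1, e2, e3⟩ := h2 _ _ _ ((h.2 _ _ _).1 h3) ((h.1 _ _).1 h4) ((h.1 _ _).1 h5)
      ((h.1 _ _).1 h6)
    exact ⟨θ.injective e1, θ.injective e2, θ.injective e3⟩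

theorem rep_w3 {θ : ℕ ≃ Fin 3 × A} (hl : Sl l) (hk : Sl k) (h : Rep l k r R θ) : W3 r R where
  refl := fun u => (h.1 _ _).2 (cle_refl _)
  anti := fun u v h1 h2 => θ.injective (cle_anti hl hk _ _ ((h.1 _ _).1 h1) ((h.1 _ _).1 h2))
  trans := fun u v w h1 h2 => (h.1 _ _).2 (cle_trans hl hk _ _ _ ((h.1 _ _).1 h1)
    ((h.1 _ _).1 h2))
  total := fun u v => (cle_total hl hk (θ u) (θ v)).imp (h.1 _ _).2 (h.1 _ _).2
  cov := by
    intro u
    obtain ⟨⟨p, a⟩, hp⟩ : ∃ x, θ u = x := ⟨_, rfl⟩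
    refine ⟨θ.symm (1, a), θ.symm (2, a), θ.symm (0, a), (rep_max hl hk h _ _ _).2
      ⟨a, θ.apply_symm_apply _, θ.apply_symm_apply _, θ.apply_symm_apply _⟩, ?_⟩
    have hu : u = θ.symm (p, a) := by
      rw [← hp, θ.symm_apply_apply]
    fin_cases p
    · exact Or.inr (Or.inr hu)
    · exact Or.inl hu
    · exact Or.inr (Or.inl hu)
  two := by
    intro a b c h1 a' b' c' h2
    obtain ⟨x, e1, e2, e3⟩ := (rep_max hl hk h _ _ _).1 h1
    obtain ⟨y, f1, f2, f3⟩ := (rep_max hl hk h _ _ _).1 h2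
    have ne : ∀ {u v : ℕ} {p q : Fin 3} {s t : A}, θ u = (p, s) → θ v = (q, t) → p < q →
        lt r u v := by
      intro u v p q s t g1 g2 hpq
      refine ⟨?_, ?_⟩
      · rw [h.1, g1, g2]
        exact cle_lt hpq _ _
      · rintro rfl
        rw [g1] at g2
        have : p = q := congrArg Prod.fst g2
        rw [this] at hpq
        exact lt_irrefl _ hpq
    have eq : ∀ {u v : ℕ} {p : Fin 3}, θ u = (p, x) → θ v = (p, y) → (u = v ↔ x = y) := by
      intro u v p g1 g2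
      rw [← θ.injective.eq_iff, g1, g2]
      constructor
      · exact fun hh => congrArg Prod.snd hh
      · rintro rfl
        rfl
    refine ⟨ne e3 f1 (by decide), ne e1 f2 (by decide), ne e3 f2 (by decide), ?_, ?_, ?_⟩
    · rw [eq e1 f1, eq e2 f2]
    · rw [eq e1 f1, eq e3 f3]
    · rw [h.1, h.1, e3, f3, e1, f1, cle0, cle1]
      constructor
      · rintro (g | g)
        · exact Or.inl g.symm
        · exact Or.inr g
      · rintro (g | g)
        · exact Or.inl g.symm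
        · exact Or.inr g
  gen := by
    intro u v w
    rw [h.2]
    constructor
    · rintro ⟨a, h1, h2, h3⟩
      refine ⟨θ.symm (1, a), θ.symm (2, a), θ.symm (0, a), (rep_max hl hk h _ _ _).2
        ⟨a, θ.apply_symm_apply _, θ.apply_symm_apply _, θ.apply_symm_apply _⟩, ?_, ?_, ?_⟩
      · rw [h.1, θ.apply_symm_apply]
        exact h1
      · rw [h.1, θ.apply_symm_apply]
        exact h2
      · rw [h.1, θ.apply_symm_apply]
        exact h3
    · rintro ⟨a, b, c, h1, h2, h3, h4⟩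
      obtain ⟨x, e1, e2, e3⟩ := (rep_max hl hk h _ _ _).1 h1
      rw [h.1, e1] at h2
      rw [h.1, e2] at h3
      rw [h.1, e3] at h4
      exact ⟨x, h2, h3, h4⟩

/-- the first order on the first coordinates -/
def lA (r : ℕ → ℕ → Prop) (R : ℕ → ℕ → ℕ → Prop) (a b : {u // P1 r R u}) : Prop :=
  lt r a.1 b.1

/-- the second order on the first coordinates -/
def kA (r : ℕ → ℕ → Prop) (R : ℕ → ℕ → ℕ → Prop) (a b : {u // P1 r R u}) : Prop :=
  k2 r R a.1 b.1

theorem w3_rep (h : W3 r R) : Sl (lA r R) ∧ Sl (kA r R) ∧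
    ∃ θ : ℕ ≃ Fin 3 × {u // P1 r R u}, Rep (lA r R) (kA r R) r R θ ∧
      ∀ a : {u // P1 r R u}, θ.symm (1, a) = a.1 := by
  classical
  have hex : ∀ a : {u // P1 r R u}, ∃ v w, Mx3 r R a.1 v w := fun a => a.2
  choose b c hbc using hex
  have k2' : ∀ a a' : {u // P1 r R u}, kA r R a a' ↔ lt r (b a) (b a') := by
    intro a a'
    constructor
    · rintro ⟨v, w, v', w', h1, h2, h3⟩
      have e1 : b a = v := ((h.two _ _ _ (hbc a) _ _ _ h1).2.2.2.1).1 rfl
      have e2 : b a' = v' := ((h.two _ _ _ (hbc a') _ _ _ h2).2.2.2.1).1 rfl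
      rw [e1, e2]
      exact h3
    · intro h1
      exact ⟨_, _, _, _, hbc a, hbc a', h1⟩
  have ltot : ∀ u v : ℕ, u = v ∨ lt r u v ∨ lt r v u := by
    intro u v
    by_cases huv : u = v
    · exact Or.inl huv
    · rcases h.total u v with h1 | h1
      · exact Or.inr (Or.inl ⟨h1, huv⟩)
      · exact Or.inr (Or.inr ⟨h1, Ne.symm huv⟩)
  have ltr : ∀ u v w : ℕ, lt r u v → lt r v w → lt r u w := by
    rintro u v w ⟨h1, h2⟩ ⟨h3, h4⟩
    refine ⟨h.trans _ _ _ h1 h3, ?_⟩
    rintro rfl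
    exact h2 (h.anti _ _ h1 h3)
  have hl : Sl (lA r R) := ⟨fun a h1 => h1.2 rfl, fun a b c h1 h2 => ltr _ _ _ h1 h2,
    fun a b => (ltot a.1 b.1).imp Subtype.ext id⟩
  have binj : ∀ a a' : {u // P1 r R u}, b a = b a' → a = a' := fun a a' h1 =>
    Subtype.ext (((h.two _ _ _ (hbc a) _ _ _ (hbc a')).2.2.2.1).2 h1)
  have cinj : ∀ a a' : {u // P1 r R u}, c a = c a' → a = a' := fun a a' h1 =>
    Subtype.ext (((h.two _ _ _ (hbc a) _ _ _ (hbc a')).2.2.2.2.1).2 h1)
  have hk : Sl (kA r R) := by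
    refine ⟨fun a h1 => ?_, fun x y z h1 h2 => ?_, fun x y => ?_⟩
    · rw [k2'] at h1
      exact h1.2 rfl
    · rw [k2'] at h1 h2 ⊢
      exact ltr _ _ _ h1 h2
    · rw [k2', k2']
      exact (ltot (b x) (b y)).imp (binj _ _) id
  refine ⟨hl, hk, ?_⟩
  let f : Fin 3 × {u // P1 r R u} → ℕ := fun x =>
    if x.1 = 0 then c x.2 else if x.1 = 1 then x.2.1 else b x.2
  have f0 : ∀ a, f (0, a) = c a := fun a => rfl
  have f1 : ∀ a, f (1, a) = a.1 := fun a => rfl
  have f2 : ∀ a, f (2, a) = b a := fun a => rfl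
  have key : ∀ x y, r (f x) (f y) ↔ cle (lA r R) (kA r R) x y := by
    have up : ∀ p q (a a' : {u // P1 r R u}), p < q → lt r (f (p, a)) (f (q, a')) := by
      intro p q a a' hpq
      obtain ⟨g1, g2, g3, -⟩ := h.two _ _ _ (hbc a) _ _ _ (hbc a')
      fin_cases p
      · fin_cases q
        · exact absurd hpq (by decide)
        · exact g1
        · exact g3
      · fin_cases q
        · exact absurd hpq (by decide)
        · exact absurd hpq (by decide)
        · exact g2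
      · fin_cases q
        · exact absurd hpq (by decide)
        · exact absurd hpq (by decide)
        · exact absurd hpq (by decide)
    have le_iff : ∀ u v : ℕ, r u v ↔ u = v ∨ lt r u v := by
      intro u v
      constructor
      · intro h1
        by_cases huv : u = v
        · exact Or.inl huv
        · exact Or.inr ⟨h1, huv⟩
      · rintro (rfl | h1)
        · exact h.refl _
        · exact h1.1
    rintro ⟨p, a⟩ ⟨q, a'⟩
    rcases lt_trichotomy p q with h1 | h1 | h1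
    · exact iff_of_true (up p q a a' h1).1 (cle_lt h1 _ _)
    · subst h1
      obtain ⟨-, -, -, g4, g5, g6⟩ := h.two _ _ _ (hbc a) _ _ _ (hbc a')
      fin_cases p
      · show r (c a) (c a') ↔ cle _ _ (0, a) (0, a')
        rw [cle0, g6, le_iff]
        constructor
        · rintro (g | g)
          · exact Or.inl (Subtype.ext g.symm)
          · exact Or.inr g
        · rintro (g | g)
          · exact Or.inl (congrArg Subtype.val g.symm)
          · exact Or.inr g
      · show r a.1 a'.1 ↔ cle _ _ (1, a) (1, a')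
        rw [cle1, le_iff]
        constructor
        · rintro (g | g)
          · exact Or.inl (Subtype.ext g)
          · exact Or.inr g
        · rintro (g | g)
          · exact Or.inl (congrArg Subtype.val g)
          · exact Or.inr g
      · show r (b a) (b a') ↔ cle _ _ (2, a) (2, a')
        rw [cle2, le_iff, k2']
        constructor
        · rintro (g | g)
          · exact Or.inl (binj _ _ g)
          · exact Or.inr g
        · rintro (g | g)
          · exact Or.inl (by rw [g])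
          · exact Or.inr g
    · refine iff_of_false (fun h2 => ?_) (cle_gt h1 _ _)
      have h3 := up q p a' a h1
      exact h3.2 (h.anti _ _ h3.1 h2)
  have finj : Function.Injective f := by
    intro x y hxy
    refine cle_anti hl hk x y ((key x y).1 ?_) ((key y x).1 ?_)
    · rw [hxy]
      exact h.refl _
    · rw [hxy]
      exact h.refl _
  have fsur : Function.Surjective f := by
    intro u
    obtain ⟨x, y, z, h1, h2⟩ := h.cov u
    let a : {u // P1 r R u} := ⟨x, y, z, h1⟩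
    obtain ⟨-, -, -, g4, g5, -⟩ := h.two _ _ _ (hbc a) _ _ _ h1
    rcases h2 with rfl | rfl | rfl
    · exact ⟨(1, a), rfl⟩
    · exact ⟨(2, a), g4.1 rfl⟩
    · exact ⟨(0, a), g5.1 rfl⟩
  let θ : ℕ ≃ Fin 3 × {u // P1 r R u} := (Equiv.ofBijective f ⟨finj, fsur⟩).symm
  have hθ : ∀ x, θ.symm x = f x := fun x => rfl
  have hfθ : ∀ u, f (θ u) = u := fun u => (Equiv.ofBijective f ⟨finj, fsur⟩).apply_symm_apply u
  have r1 : ∀ u v, r u v ↔ cle (lA r R) (kA r R) (θ u) (θ v) := by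
    intro u v
    rw [← key, hfθ, hfθ]
  refine ⟨θ, ⟨r1, fun u v w => ?_⟩, fun a => rfl⟩
  rw [h.gen]
  constructor
  · rintro ⟨x, y, z, h1, h2, h3, h4⟩
    let a : {u // P1 r R u} := ⟨x, y, z, h1⟩
    obtain ⟨-, -, -, g4, g5, -⟩ := h.two _ _ _ (hbc a) _ _ _ h1
    have gb : b a = y := g4.1 rfl
    have gc : c a = z := g5.1 rfl
    have t1 : θ x = (1, a) := by
      apply finj
      rw [hfθ, f1]
    have t2 : θ y = (2, a) := by
      apply finj
      rw [hfθ, f2, gb]
    have t3 : θ z = (0, a) := by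
      apply finj
      rw [hfθ, f0, gc]
    refine ⟨a, ?_, ?_, ?_⟩
    · rw [← t1, ← r1]
      exact h2
    · rw [← t2, ← r1]
      exact h3
    · rw [← t3, ← r1]
      exact h4
  · rintro ⟨a, h1, h2, h3⟩
    refine ⟨a.1, b a, c a, hbc a, ?_, ?_, ?_⟩
    · rw [← hfθ u, ← f1 a, key]
      exact h1
    · rw [← hfθ v, ← f2 a, key]
      exact h2
    · rw [← hfθ w, ← f0 a, key]
      exact h3

end rep

end Pool.Agent.H2.LP
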