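import Pool.Agent.H2.LP.Med

set_option autoImplicit false

/-!
First-order theories with polymorphisms.
-/

namespace Pool.Agent.H2.LP

open FirstOrder FirstOrder.Language
open Pool.Agent.H533R2.VO (RS)
open Pool.Agent.H533R2.VS (US UIso UDich VCu)
open Pool.Agent.W889.FO
open Pool.Agent.W889.FO.St0 (RF LF W D gr fun_iff)
open Pool.Agent.R617.VT (ar_e dc Nrm)

/-- polymorphisms -/
def PolG {L : FirstOrder.Language.{0, 0}} (S : L.Structure ℕ) {r : ℕ} (m : (Fin r → ℕ) → ℕ) :
    Prop :=
  (∀ (n : ℕ) (R : L.Relations n) (s : Fin r → Fin n → ℕ),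
    (∀ p, @Structure.RelMap L ℕ S n R (s p)) →
      @Structure.RelMap L ℕ S n R fun j => m fun p => s p j) ∧
  ∀ (n : ℕ) (F : L.Functions n) (s : Fin r → Fin n → ℕ),
    (@Structure.funMap L ℕ S n F fun j => m fun p => s p j) =
      m fun p => @Structure.funMap L ℕ S n F (s p)

/-- the interpretation of a binary relation symbol -/
def rl {L : FirstOrder.Language.{0, 0}} (S : L.Structure ℕ) (Q : L.Relations 2) (u v : ℕ) :
    Prop := @Structure.RelMap L ℕ S 2 Q ![u, v]

theorem pr_two {m : ℕ} (hm : m = 2) (u v : ℕ) :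
    (pr u v : Fin m → ℕ) = fun k => ![u, v] (Fin.cast hm k) := by
  subst hm
  funext k
  fin_cases k <;> rfl

section

variable {L : FirstOrder.Language.{0, 0}} {e : (Σ n, (LF L).Relations n) → ℕ}
  (he : Function.Injective e)

theorem ql_rl (x : RS (Pool.Agent.R617.VT.ar e)) (Q : L.Relations 2) :
    Ql x (e ⟨2, RF.rel Q⟩) = rl (D (dc he x)) Q := by
  funext u v
  show (x (e ⟨2, RF.rel Q⟩) (pr u v) = true) = _
  rw [pr_two (ar_e he ⟨2, RF.rel Q⟩) u v]
  rfl

/-- the relations of the code, when the relations and the graphs of the functions are closed -/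
theorem cl_code {x : RS (Pool.Agent.R617.VT.ar e)} (hx : Nrm x) (hW : W (dc he x)) {r : ℕ}
    (hr : 0 < r) {m : (Fin r → ℕ) → ℕ}
    (hm : ∀ (n : ℕ) (R : L.Relations n),
      ClG m fun s => @Structure.RelMap L ℕ (D (dc he x)) n R s)
    (hf : ∀ (n : ℕ) (F : L.Functions n), ClG m fun w : Fin (n + 1) → ℕ =>
      @Structure.funMap L ℕ (D (dc he x)) n F (fun k => w k.castSucc) = w (Fin.last n)) (i : ℕ) :
    ClG m fun t => x i t = true := by
  intro s hs
  by_cases hi : ∃ p, e p = i
  · obtain ⟨⟨n, P⟩, rfl⟩ := hi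
    have hn : Pool.Agent.R617.VT.ar e (e ⟨n, P⟩) = n := ar_e he ⟨n, P⟩
    -- the tuples over `Fin n`
    have key : ∀ t : Fin (Pool.Agent.R617.VT.ar e (e ⟨n, P⟩)) → ℕ, x (e ⟨n, P⟩) t = true ↔
        @Structure.RelMap (LF L) ℕ (dc he x) n P fun k => t (Fin.cast hn.symm k) := by
      intro t
      rw [Pool.Agent.R617.VT.rel_dc]
      exact Iff.rfl
    have hs' := fun p => (key (s p)).1 (hs p)
    refine (key _).2 ?_
    cases P with
    | rel R => exact hm n R (fun p k => s p (Fin.cast hn.symm k)) hs'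
    | @fn l F =>
      have hg : ∀ w : Fin (l + 1) → ℕ, @Structure.RelMap (LF L) ℕ (dc he x) (l + 1) (RF.fn F) w ↔
          @Structure.funMap L ℕ (D (dc he x)) l F (fun k => w k.castSucc) = w (Fin.last l) := by
        intro w
        rw [fun_iff hW F (fun k => w k.castSucc) (w (Fin.last l))]
        have e1 : (Fin.snoc (α := fun _ => ℕ) (fun k => w k.castSucc) (w (Fin.last l)) :
            Fin (l + 1) → ℕ) = w := by
          funext j
          refine Fin.lastCases ?_ (fun j => ?_) j
          · rw [Fin.snoc_last]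
          · rw [Fin.snoc_castSucc]
        show _ ↔ @Structure.RelMap (LF L) ℕ (dc he x) (l + 1) (RF.fn F)
          (Fin.snoc (α := fun _ => ℕ) (fun k => w k.castSucc) (w (Fin.last l)))
        rw [e1]
      refine (hg _).2 ?_
      exact hf l F (fun p k => s p (Fin.cast hn.symm k)) fun p => (hg _).1 (hs' p)
  · have h1 : x i (s ⟨0, hr⟩) = true := hs ⟨0, hr⟩
    rw [hx i hi] at h1
    exact absurd h1 Bool.false_ne_true

end

/-- functions that commute with an operation have closed graphs -/
theorem gr_cl {L : FirstOrder.Language.{0, 0}} {S : L.Structure ℕ} {r : ℕ}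
    {m : (Fin r → ℕ) → ℕ} {n : ℕ} (F : L.Functions n)
    (h : ∀ s : Fin r → Fin n → ℕ, (@Structure.funMap L ℕ S n F fun j => m fun p => s p j) =
      m fun p => @Structure.funMap L ℕ S n F (s p)) :
    ClG m fun w : Fin (n + 1) → ℕ =>
      @Structure.funMap L ℕ S n F (fun k => w k.castSucc) = w (Fin.last n) := by
  intro s hs
  have h2 := h fun p k => s p k.castSucc
  refine h2.trans ?_
  show m _ = m _
  congr 1
  funext p
  exact hs p

/-- the median of three elements -/
noncomputable def md3 (le : ℕ → ℕ → Prop) (f : Fin 3 → ℕ) : ℕ := md le (f 0) (f 1) (f 2)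

theorem cl_three {m : ℕ → ℕ → ℕ → ℕ} {n : ℕ} {S : (Fin n → ℕ) → Prop} :
    ClG (fun f : Fin 3 → ℕ => m (f 0) (f 1) (f 2)) S ↔ Cl3 m S := by
  constructor
  · intro h s t u hs ht hu
    have := h ![s, t, u] (fun p => by
      fin_cases p
      · exact hs
      · exact ht
      · exact hu)
    exact this
  · intro h s hs
    exact h (s 0) (s 1) (s 2) (hs 0) (hs 1) (hs 2)

/-- The dichotomy for the theories of structures in which all relations and all graphs of functions
are closed under the median. -/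
theorem fo_md {L : FirstOrder.Language.{0, 0}} (hL : Countable L.Symbols) (Q : L.Relations 2)
    (T : L.Theory) (h : ∀ S : L.Structure ℕ, @Theory.Model L ℕ S T →
      Lin (rl S Q) ∧ (∀ (n : ℕ) (R : L.Relations n),
        Cl3 (md (rl S Q)) fun s => @Structure.RelMap L ℕ S n R s) ∧
      ∀ (n : ℕ) (F : L.Functions n), Cl3 (md (rl S Q)) fun w : Fin (n + 1) → ℕ =>
        @Structure.funMap L ℕ S n F (fun k => w k.castSucc) = w (Fin.last n)) :
    VaughtF L T := by
  refine Pool.Agent.K7.H41.NC.fo_of hL T fun e he => ⟨Pmd (e ⟨2, RF.rel Q⟩), vcu_md _,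
    fun x hx hW hM => ?_⟩
  obtain ⟨h1, h2, h3⟩ := h _ hM
  unfold Pmd
  rw [ql_rl he]
  exact ⟨h1, fun i => cl_three.1 (cl_code he hx hW (by omega) (fun n R => cl_three.2 (h2 n R))
    (fun n F => cl_three.2 (h3 n F)) i)⟩

/-- a monotone majority operation of a linear order is the median -/
theorem maj_md {le : ℕ → ℕ → Prop} (h : Lin le) {m : ℕ → ℕ → ℕ → ℕ}
    (h1 : ∀ u v, m u u v = u) (h2 : ∀ u v, m u v u = u) (h3 : ∀ u v, m v u u = u)
    (hm : ∀ u v w u' v' w', le u u' → le v v' → le w w' → le (m u v w) (m u' v' w'))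
    (u v w : ℕ) : m u v w = md le u v w := by
  have up : ∀ x, (le x u ∧ le x v) ∨ (le x u ∧ le x w) ∨ (le x v ∧ le x w) →
      le x (m u v w) := by
    rintro x (⟨a, b⟩ | ⟨a, b⟩ | ⟨a, b⟩)
    · have := hm x x w u v w a b (h.refl w)
      rwa [h1] at this
    · have := hm x v x u v w a (h.refl v) b
      rwa [h2] at this
    · have := hm u x x u v w (h.refl u) a b
      rwa [h3] at this
  have dn : ∀ x, (le u x ∧ le v x) ∨ (le u x ∧ le w x) ∨ (le v x ∧ le w x) →
      le (m u v w) x := by
    rintro x (⟨a, b⟩ | ⟨a, b⟩ | ⟨a, b⟩)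
    · have := hm u v w x x w a b (h.refl w)
      rwa [h1] at this
    · have := hm u v w x v x a (h.refl v) b
      rwa [h2] at this
    · have := hm u v w u x x (h.refl u) a b
      rwa [h3] at this
  refine h.anti _ _ (dn _ ?_) (up _ ?_)
  · have := (md_le h (md le u v w) u v w).1 (h.refl _)
    tauto
  · have := (le_md h (md le u v w) u v w).1 (h.refl _)
    tauto

end Pool.Agent.H2.LP
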