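import Pool.Agent.H2.LP.Bas
import Pool.Agent.H2.VC.Sharp

set_option autoImplicit false

/-!
Linear orders with a binary relation which is preserved by the minimum: the general case of Vaught's
conjecture.
-/

namespace Pool.Agent.H2.LP.Sh

open FirstOrder FirstOrder.Language
open Pool.Agent.W889.FO Pool.Agent.W889.VC
open Pool.Agent.W889.FO.StA (FD.all1 FD.ex1)
open Pool.Agent.W889.FO.StE (LG)
open Pool.Agent.TH686.FO Pool.Agent.TH686.DO
open Pool.Agent.H2.VC.Sh (of2)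

/-- interpretations with the same domain -/
def idI {W1 : L2.Structure ℕ → Prop} (ax : Ax W1) {ρ ρ' : L2.Structure ℕ → ℕ → ℕ → Prop}
    (h : FB ρ) (h' : FB ρ') : Itp L2 L2 where
  W := W1
  axW := ax
  dom := fun _ _ => True
  rel := fun {n} Q => match n, Q with
    | _, R2.fst => fun S v => ρ S (v 0) (v 1)
    | _, R2.snd => fun S v => ρ' S (v 0) (v 1)
  fdom := FD.const True
  frel := fun {n} Q => match n, Q with
    | _, R2.fst => (h 0 1).mono fun _ _ => trivial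
    | _, R2.snd => (h' 0 1).mono fun _ _ => trivial
  inf := fun _ _ N => ⟨N, le_rfl, trivial⟩

theorem idI_D {W1 : L2.Structure ℕ → Prop} (ax : Ax W1) {ρ ρ' : L2.Structure ℕ → ℕ → ℕ → Prop}
    (hρ : FB ρ) (hρ' : FB ρ') {S : L2.Structure ℕ} (h : W1 S) :
    SIso ((idI ax hρ hρ').D S) (of2 (ρ S) (ρ' S)) := by
  refine (idI ax hρ hρ').D_iso (S := S) h (Equiv.subtypeUnivEquiv (p := fun _ : ℕ => True)
    fun _ => trivial).symm fun {n} Q u => ?_
  cases Q with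
  | fst => exact Iff.rfl
  | snd => exact Iff.rfl

/-- composition with definable relations -/
theorem ax_comp {W : L2.Structure ℕ → Prop} (hW : Ax W) {ρ ρ' : L2.Structure ℕ → ℕ → ℕ → Prop}
    (hρ : FB ρ) (hρ' : FB ρ') : Ax (fun S => W (of2 (ρ S) (ρ' S))) := by
  obtain ⟨T, hT⟩ := hW
  have h0 : Ax (fun _ : L2.Structure ℕ => True) := Ax.of (FD.const True)
  refine ((idI h0 hρ hρ').ax_theory T).congr fun S => ?_
  rw [← hT]
  have h1 := idI_D h0 hρ hρ' (S := S) trivial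
  exact ⟨fun h => h1.model h.2, fun h => ⟨trivial, h1.symm.model h⟩⟩

/-- isomorphism -/
theorem siso2 {S S' : L2.Structure ℕ} (σ : Equiv.Perm ℕ)
    (h1 : ∀ u v, g1 S' (σ u) (σ v) ↔ g1 S u v) (h2 : ∀ u v, g2 S' (σ u) (σ v) ↔ g2 S u v) :
    SIso S S' := by
  refine siso_ps ⟨σ, fun u v => ⟨?_, ?_⟩⟩
  · rw [Bool.eq_iff_iff, ps1, ps1]
    exact h1 u v
  · rw [Bool.eq_iff_iff, ps2, ps2]
    exact h2 u v

/-- the reflexive order -/
def Pl (r : ℕ → ℕ → Prop) (u v : ℕ) : Prop := u = v ∨ r u v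

/-- the relation -/
def Kl (r e : ℕ → ℕ → Prop) (u v : ℕ) : Prop :=
  ∃ u' v', e u u' ∧ e v v' ∧ r u u' ∧ r v' v ∧ Pl r u v' ∧ Pl r v u'

/-- the decoded strict order -/
def r1 (S : L2.Structure ℕ) (u v : ℕ) : Prop := g1 S u v ∧ ¬ u = v

/-- the decoded involution -/
def r2 (S : L2.Structure ℕ) (u v : ℕ) : Prop :=
  (g2 S u v ∧ ∀ w, g2 S u w → g1 S w v) ∨ (g2 S v u ∧ ∀ w, g2 S v w → g1 S w u)

theorem fb_r1 : FB r1 := fun i j => (fb_g1 i j).and (FD.eq i j).not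

theorem fb_r2 : FB r2 := fun i j =>
  ((fb_g2 i j).and <| FD.all1 <| (fb_g2 (Sum.inl i) x0).imp (fb_g1 x0 (Sum.inl j))).or <|
    (fb_g2 j i).and <| FD.all1 <| (fb_g2 (Sum.inl j) x0).imp (fb_g1 x0 (Sum.inl i))

theorem fb_pl {ρ : L2.Structure ℕ → ℕ → ℕ → Prop} (h : FB ρ) : FB fun S => Pl (ρ S) :=
  fun i j => (FD.eq i j).or (h i j)

theorem fb_kl {ρ ρ' : L2.Structure ℕ → ℕ → ℕ → Prop} (h : FB ρ) (h' : FB ρ') :
    FB fun S => Kl (ρ S) (ρ' S) := fun i j => FD.ex1 <| FD.ex1 <|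
  (h' (Sum.inl (Sum.inl i)) x1).and <| (h' (Sum.inl (Sum.inl j)) x0).and <|
    (h (Sum.inl (Sum.inl i)) x1).and <| (h x0 (Sum.inl (Sum.inl j))).and <|
      (fb_pl h (Sum.inl (Sum.inl i)) x0).and (fb_pl h (Sum.inl (Sum.inl j)) x1)

theorem ePl {r r' : ℕ → ℕ → Prop} (σ : Equiv.Perm ℕ) (h : ∀ u v, r' (σ u) (σ v) ↔ r u v)
    (u v : ℕ) : Pl r' (σ u) (σ v) ↔ Pl r u v := by
  unfold Pl
  rw [h, σ.injective.eq_iff]

theorem eKl {r r' e e' : ℕ → ℕ → Prop} (σ : Equiv.Perm ℕ) (h : ∀ u v, r' (σ u) (σ v) ↔ r u v)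
    (h' : ∀ u v, e' (σ u) (σ v) ↔ e u v) (u v : ℕ) : Kl r' e' (σ u) (σ v) ↔ Kl r e u v := by
  constructor
  · rintro ⟨a, b, k1, k2, k3, k4, k5, k6⟩
    obtain ⟨a, rfl⟩ := σ.surjective a
    obtain ⟨b, rfl⟩ := σ.surjective b
    exact ⟨a, b, (h' _ _).1 k1, (h' _ _).1 k2, (h _ _).1 k3, (h _ _).1 k4, (ePl σ h _ _).1 k5,
      (ePl σ h _ _).1 k6⟩
  · rintro ⟨a, b, k1, k2, k3, k4, k5, k6⟩
    exact ⟨σ a, σ b, (h' _ _).2 k1, (h' _ _).2 k2, (h _ _).2 k3, (h _ _).2 k4,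
      (ePl σ h _ _).2 k5, (ePl σ h _ _).2 k6⟩

section facts

variable {S : L2.Structure ℕ} (h : IW S)

include h

theorem slo_irr (u : ℕ) : ¬ g1 S u u := h.o.1 u

theorem slo_tr {u v w : ℕ} (h1 : g1 S u v) (h2 : g1 S v w) : g1 S u w := h.o.2 u v w h1 h2

theorem slo_tot {u v : ℕ} (h1 : u ≠ v) : g1 S u v ∨ g1 S v u := h.o.3 u v h1

theorem lin_pl : Lin (Pl (g1 S)) where
  refl := fun u => Or.inl rfl
  anti := by
    rintro u v (rfl | h1) h2
    · rfl
    · rcases h2 with rfl | h2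
      · rfl
      · exact absurd (slo_tr h h1 h2) (slo_irr h u)
  trans := by
    rintro u v w (rfl | h1) h2
    · exact h2
    · rcases h2 with rfl | h2
      · exact Or.inr h1
      · exact Or.inr (slo_tr h h1 h2)
  total := by
    intro u v
    by_cases huv : u = v
    · exact Or.inl (Or.inl huv)
    · rcases slo_tot h huv with h1 | h1
      · exact Or.inl (Or.inr h1)
      · exact Or.inr (Or.inr h1)

theorem kl_closed {s0 s1 t0 t1 : ℕ} (hs : Kl (g1 S) (g2 S) s0 s1) (ht : Kl (g1 S) (g2 S) t0 t1) :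
    Kl (g1 S) (g2 S) (mn (Pl (g1 S)) s0 t0) (mn (Pl (g1 S)) s1 t1) := by
  have hL := lin_pl h
  obtain ⟨a, b, k1, k2, k3, k4, k5, k6⟩ := hs
  obtain ⟨c, d, l1, l2, l3, l4, l5, l6⟩ := ht
  unfold mn minimum
  split_ifs with e1 e2 e2
  · exact ⟨a, b, k1, k2, k3, k4, k5, k6⟩
  · exact ⟨a, d, k1, l2, k3, l4, hL.trans _ _ _ e1 l5,
      hL.trans _ _ _ ((hL.total s1 t1).resolve_left e2) k6⟩
  · exact ⟨c, b, l1, k2, l3, k4, hL.trans _ _ _ ((hL.total s0 t0).resolve_left e1) k5,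
      hL.trans _ _ _ e2 l6⟩
  · exact ⟨c, d, l1, l2, l3, l4, l5, l6⟩

theorem kl_self {u v : ℕ} (h1 : g2 S u v) (h2 : g1 S u v) : Kl (g1 S) (g2 S) u v :=
  ⟨v, u, h1, h.sy _ _ h1, h2, h2, Or.inl rfl, Or.inl rfl⟩

theorem kl_max {u v w : ℕ} (h1 : g2 S u v) (h2 : Kl (g1 S) (g2 S) u w) : Pl (g1 S) w v := by
  obtain ⟨a, b, k1, k2, k3, k4, k5, k6⟩ := h2
  have : a = v := h.fn _ _ _ k1 h1
  rw [← this]
  exact k6

theorem dec1 : r1 (of2 (Pl (g1 S)) (Kl (g1 S) (g2 S))) = g1 S := by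
  funext u v
  refine propext ?_
  show Pl (g1 S) u v ∧ ¬ u = v ↔ g1 S u v
  constructor
  · rintro ⟨rfl | h1, h2⟩
    · exact absurd rfl h2
    · exact h1
  · intro h1
    refine ⟨Or.inr h1, ?_⟩
    rintro rfl
    exact slo_irr h u h1

theorem dec2 : r2 (of2 (Pl (g1 S)) (Kl (g1 S) (g2 S))) = g2 S := by
  have hL := lin_pl h
  have key : ∀ u v, (Kl (g1 S) (g2 S) u v ∧ ∀ w, Kl (g1 S) (g2 S) u w → Pl (g1 S) w v) →
      g2 S u v := by
    rintro u v ⟨h1, h2⟩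
    obtain ⟨a, b, k1, k2, k3, k4, k5, k6⟩ := h1
    have h3 := h2 a (kl_self h k1 k3)
    have : a = v := hL.anti _ _ h3 k6
    rw [← this]
    exact k1
  have key2 : ∀ u v, g2 S u v → g1 S u v →
      (Kl (g1 S) (g2 S) u v ∧ ∀ w, Kl (g1 S) (g2 S) u w → Pl (g1 S) w v) := fun u v h1 h2 =>
    ⟨kl_self h h1 h2, fun w hw => kl_max h h1 hw⟩
  funext u v
  refine propext ?_
  show (Kl (g1 S) (g2 S) u v ∧ ∀ w, Kl (g1 S) (g2 S) u w → Pl (g1 S) w v) ∨
    (Kl (g1 S) (g2 S) v u ∧ ∀ w, Kl (g1 S) (g2 S) v w → Pl (g1 S) w u) ↔ g2 S u v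
  constructor
  · rintro (h1 | h1)
    · exact key u v h1
    · exact h.sy _ _ (key v u h1)
  · intro h1
    have hne : u ≠ v := by
      rintro rfl
      exact h.ir u h1
    rcases slo_tot h hne with h2 | h2
    · exact Or.inl (key2 u v h1 h2)
    · exact Or.inr (key2 v u (h.sy _ _ h1) h2)

end facts

/-- linear orders with a relation which is closed under the minimum -/
def Mn (S : L2.Structure ℕ) : Prop :=
  Lin (g1 S) ∧ Cl2 (mn (g1 S)) fun v : Fin 2 → ℕ => g2 S (v 0) (v 1)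

/-- linear orders with a relation which is closed under the maximum -/
def Mx (S : L2.Structure ℕ) : Prop :=
  Lin (g1 S) ∧ Cl2 (mx (g1 S)) fun v : Fin 2 → ℕ => g2 S (v 0) (v 1)

theorem red_min (hV : ∀ T' : L2.Theory, (∀ S : L2.Structure ℕ, @Theory.Model L2 ℕ S T' →
    Mn S) → Vaught L2 T') (T : LG.Theory) : Vaught LG T := by
  have := countable_L2
  let W1 : L2.Structure ℕ → Prop := fun S => IW (of2 (r1 S) (r2 S)) ∧
    (∀ u v, g1 S u v ↔ Pl (r1 S) u v) ∧ ∀ u v, g2 S u v ↔ Kl (r1 S) (r2 S) u v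
  have ax : Ax W1 := (ax_comp ax_IW fb_r1 fb_r2).and <|
    (Ax.of <| FD.all1 <| FD.all1 <| (fb_g1 x1 x0).iff (fb_pl fb_r1 x1 x0)).and
      (Ax.of <| FD.all1 <| FD.all1 <| (fb_g2 x1 x0).iff (fb_kl fb_r1 fb_r2 x1 x0))
  refine Pool.Agent.TH686.DO.red_inv (fun T1 hT1 => ?_) T
  have hj : Itp.Cnt (idI ax fb_r1 fb_r2) Unit (fun _ => ()) := by
    refine ⟨fun S S' h h' hi _ => ?_, fun f _ _ c => BP.const _⟩
    have h1 : SIso (of2 (r1 S) (r2 S)) (of2 (r1 S') (r2 S')) :=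
      ((idI_D ax fb_r1 fb_r2 h).symm.trans hi).trans (idI_D ax fb_r1 fb_r2 h')
    obtain ⟨e⟩ := h1
    let σ : Equiv.Perm ℕ :=
      @FirstOrder.Language.Equiv.toEquiv L2 ℕ ℕ (of2 (r1 S) (r2 S)) (of2 (r1 S') (r2 S')) e
    have h2 : ∀ u v, r1 S' (σ u) (σ v) ↔ r1 S u v := fun u v =>
      iso_rel e R2.fst ![u, v]
    have h3 : ∀ u v, r2 S' (σ u) (σ v) ↔ r2 S u v := fun u v =>
      iso_rel e R2.snd ![u, v]
    refine siso2 σ (fun u v => ?_) fun u v => ?_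
    · rw [h.2.1, h'.2.1]
      exact ePl σ h2 u v
    · rw [h.2.2, h'.2.2]
      exact eKl σ h2 h3 u v
  refine (idI ax fb_r1 fb_r2).transfer hj T1 (fun M hM => ?_) fun T' hT' => hV T' fun S hS => ?_
  · have hW := hT1 M hM
    let S : L2.Structure ℕ := of2 (Pl (g1 M)) (Kl (g1 M) (g2 M))
    have e1 : r1 S = g1 M := dec1 hW
    have e2 : r2 S = g2 M := dec2 hW
    have e3 : SIso (of2 (g1 M) (g2 M)) M :=
      siso2 (Equiv.refl ℕ) (fun _ _ => Iff.rfl) fun _ _ => Iff.rfl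
    have h1 : W1 S := by
      refine ⟨?_, fun u v => ?_, fun u v => ?_⟩
      · rw [e1, e2]
        exact ⟨hW.o, hW.dn, hW.ab, hW.be, hW.sy, hW.ir, hW.fn, hW.tot, hW.cut⟩
      · rw [e1]
        exact Iff.rfl
      · rw [e1, e2]
        exact Iff.rfl
    refine ⟨S, h1, (idI_D ax fb_r1 fb_r2 h1).trans ?_⟩
    rw [e1, e2]
    exact e3
  · obtain ⟨h1, h2, h3⟩ := (hT' S hS).1
    have e1 : g1 S = Pl (g1 (of2 (r1 S) (r2 S))) := funext fun u => funext fun v =>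
      propext (h2 u v)
    have hL := lin_pl h1
    rw [← e1] at hL
    refine ⟨hL, fun s t hs ht => ?_⟩
    have k1 := kl_closed h1 ((h3 _ _).1 hs) ((h3 _ _).1 ht)
    rw [← e1] at k1
    exact (h3 _ _).2 k1

theorem fb_op : FB fun S => op (g1 S) := fun i j => fb_g1 j i

/-- reversal of the order -/
theorem red_max (hV : ∀ T' : L2.Theory, (∀ S : L2.Structure ℕ, @Theory.Model L2 ℕ S T' →
    Mx S) → Vaught L2 T') (T : LG.Theory) : Vaught LG T := by
  have := countable_L2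
  refine red_min (fun T1 hT1 => ?_) T
  have h0 : Ax (fun _ : L2.Structure ℕ => True) := Ax.of (FD.const True)
  have hj : Itp.Cnt (idI h0 fb_op fb_g2) Unit (fun _ => ()) := by
    refine ⟨fun S S' h h' hi _ => ?_, fun f _ _ c => BP.const _⟩
    have h1 : SIso (of2 (op (g1 S)) (g2 S)) (of2 (op (g1 S')) (g2 S')) :=
      ((idI_D h0 fb_op fb_g2 h).symm.trans hi).trans (idI_D h0 fb_op fb_g2 h')
    obtain ⟨e⟩ := h1
    let σ : Equiv.Perm ℕ :=
      @FirstOrder.Language.Equiv.toEquiv L2 ℕ ℕ (of2 (op (g1 S)) (g2 S))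
        (of2 (op (g1 S')) (g2 S')) e
    have h2 : ∀ u v, op (g1 S') (σ u) (σ v) ↔ op (g1 S) u v := fun u v =>
      iso_rel e R2.fst ![u, v]
    have h3 : ∀ u v, g2 S' (σ u) (σ v) ↔ g2 S u v := fun u v =>
      iso_rel e R2.snd ![u, v]
    exact siso2 σ (fun u v => h2 v u) h3
  refine (idI h0 fb_op fb_g2).transfer hj T1 (fun M hM => ?_) fun T' hT' => hV T' fun S hS => ?_
  · let S : L2.Structure ℕ := of2 (op (g1 M)) (g2 M)
    refine ⟨S, trivial, (idI_D h0 fb_op fb_g2 (S := S) trivial).trans ?_⟩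
    exact siso2 (Equiv.refl ℕ) (fun _ _ => Iff.rfl) fun _ _ => Iff.rfl
  · have h1 := (hT' S hS).2
    have h2 : @Theory.Model L2 ℕ (of2 (op (g1 S)) (g2 S)) T1 :=
      (idI_D h0 fb_op fb_g2 (S := S) trivial).model h1
    obtain ⟨h3, h4⟩ := hT1 _ h2
    have h3' : Lin (op (g1 S)) := h3
    have h5 : Lin (g1 S) := h3'.op
    refine ⟨h5, fun s t hs ht => ?_⟩
    have h6 := h4 s t hs ht
    have h7 : g2 S (mn (op (g1 S)) (s 0) (t 0)) (mn (op (g1 S)) (s 1) (t 1)) := h6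
    rw [mn_op h5, mn_op h5] at h7
    exact h7

/-- all theories from the complete theories of linear orders with a binary relation which is closed
under the minimum -/
theorem full_min (hV : ∀ T : L2.Theory, T.IsComplete → (∀ S : L2.Structure ℕ,
      @Theory.Model L2 ℕ S T → Mn S) → VaughtF L2 T)
    (L : FirstOrder.Language.{0, 0}) (hL : Countable L.Symbols) (T : L.Theory) :
    VaughtF L T := by
  have := countable_L2
  exact all_of_LG (red_min fun T hT => compl hV T hT) L hL T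

/-- all theories from the complete theories of linear orders with a binary relation which is closed
under the maximum -/
theorem full_max (hV : ∀ T : L2.Theory, T.IsComplete → (∀ S : L2.Structure ℕ,
      @Theory.Model L2 ℕ S T → Mx S) → VaughtF L2 T)
    (L : FirstOrder.Language.{0, 0}) (hL : Countable L.Symbols) (T : L.Theory) :
    VaughtF L T := by
  have := countable_L2
  exact all_of_LG (red_max fun T hT => compl hV T hT) L hL T

end Pool.Agent.H2.LP.Sh
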