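import Mathlib.ModelTheory.Basic

set_option autoImplicit false

/-!
The relational language with a binary and a ternary relation symbol.
-/

namespace Pool.Agent.H2.LP

/-- A binary relation symbol and a ternary relation symbol. -/
inductive R23 : ℕ → Type
  | le : R23 2
  | rel : R23 3

/-- The language with a binary and a ternary relation symbol and no function symbols. -/
def L23 : FirstOrder.Language.{0, 0} := ⟨fun _ => Empty, R23⟩

end Pool.Agent.H2.LP
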