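import Pool.Agent.H2.LP.Can
import Pool.Agent.H2.LP.Lang
import Pool.Graph.R_seed8.TH686.DO.Inv2

set_option autoImplicit false

/-!
Linear orders with a downward closed ternary relation: the general case of Vaught's conjecture.
-/

namespace Pool.Agent.H2.LP

open FirstOrder FirstOrder.Language
open Pool.Agent.W889.FO Pool.Agent.W889.VC
open Pool.Agent.W889.FO.StA (FD.all1 FD.ex1)
open Pool.Agent.W889.FO.StE (LG)
open Pool.Agent.TH686.FO Pool.Agent.TH686.DO

instance : L23.IsRelational := fun _ => inferInstanceAs (IsEmpty Empty)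

theorem countable_L23 : Countable (Σ n, L23.Relations n) := by
  refine Function.Surjective.countable (α := Bool)
    (f := fun b => match b with
      | false => ⟨_, R23.le⟩
      | true => ⟨_, R23.rel⟩) ?_
  rintro ⟨n, Q⟩
  cases Q with
  | le => exact ⟨false, rfl⟩
  | rel => exact ⟨true, rfl⟩

/-- the binary relation -/
def gl (S : L23.Structure ℕ) (u v : ℕ) : Prop := @Structure.RelMap L23 ℕ S 2 R23.le ![u, v]

/-- the ternary relation -/
def gr (S : L23.Structure ℕ) (u v w : ℕ) : Prop :=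
  @Structure.RelMap L23 ℕ S 3 R23.rel ![u, v, w]

/-- a relation or its inverse -/
def fl (b : Bool) (r : ℕ → ℕ → Prop) (u v : ℕ) : Prop := if b = true then r u v else r v u

theorem fl_fl (b : Bool) (r : ℕ → ℕ → Prop) : fl b (fl b r) = r := by
  cases b <;> rfl

/-- the order or its inverse -/
def ro (b : Bool) (S : L23.Structure ℕ) : ℕ → ℕ → Prop := fl b (gl S)

theorem fb_gl : FB gl := fun {_} i j => fd_two (L' := L23) (show L23.Relations 2 from R23.le) i j

theorem fb_ro (b : Bool) : FB (ro b) := by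
  intro α i j
  cases b with
  | true => exact fb_gl i j
  | false => exact fb_gl j i

theorem fd_gr {α : Type} (i j k : α) :
    FD (fun _ => True) (fun (S : L23.Structure ℕ) v => gr S (v i) (v j) (v k)) := by
  refine (FD.rel (W := fun _ => True) (L := L23) (show L23.Relations 3 from R23.rel)
    ![i, j, k]).congr fun S _ v => ?_
  have e : (fun m : Fin 3 => v (![i, j, k] m)) = ![v i, v j, v k] := by
    funext m
    fin_cases m <;> rfl
  rw [e]
  exact Iff.rfl

theorem fb_lt (b : Bool) : FB fun S => lt (ro b S) := fun i j =>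
  (fb_ro b i j).and (FD.eq i j).not

theorem fd_mx (b : Bool) {α : Type} (i j k : α) : FD (fun _ => True)
    (fun (S : L23.Structure ℕ) v => Mx3 (ro b S) (gr S) (v i) (v j) (v k)) :=
  (fd_gr i j k).and <| FD.all1 <| FD.all1 <| FD.all1 <| (fd_gr x2 x1 x0).imp <|
    (fb_ro b (Sum.inl (Sum.inl (Sum.inl i))) x2).imp <|
    (fb_ro b (Sum.inl (Sum.inl (Sum.inl j))) x1).imp <|
    (fb_ro b (Sum.inl (Sum.inl (Sum.inl k))) x0).imp <|
    (FD.eq x2 (Sum.inl (Sum.inl (Sum.inl i)))).and <|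
    (FD.eq x1 (Sum.inl (Sum.inl (Sum.inl j)))).and (FD.eq x0 (Sum.inl (Sum.inl (Sum.inl k))))

theorem fu_p1 (b : Bool) : FU fun S => P1 (ro b S) (gr S) := fun i =>
  FD.ex1 <| FD.ex1 <| fd_mx b (Sum.inl (Sum.inl i)) x1 x0

theorem fb_k2 (b : Bool) : FB fun S => k2 (ro b S) (gr S) := fun i j =>
  FD.ex1 <| FD.ex1 <| FD.ex1 <| FD.ex1 <|
    (fd_mx b (Sum.inl (Sum.inl (Sum.inl (Sum.inl i)))) x3 x2).and <|
    (fd_mx b (Sum.inl (Sum.inl (Sum.inl (Sum.inl j)))) x1 x0).and (fb_lt b x3 x1)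

theorem ax_w3 (b : Bool) : Ax fun S => W3 (ro b S) (gr S) := by
  have h1 : Ax (fun S => ∀ u, ro b S u u) := Ax.of <| FD.all1 <| fb_ro b x0 x0
  have h2 : Ax (fun S => ∀ u v, ro b S u v → ro b S v u → u = v) :=
    Ax.of <| FD.all1 <| FD.all1 <| (fb_ro b x1 x0).imp <| (fb_ro b x0 x1).imp (FD.eq x1 x0)
  have h3 : Ax (fun S => ∀ u v w, ro b S u v → ro b S v w → ro b S u w) :=
    Ax.of <| FD.all1 <| FD.all1 <| FD.all1 <| (fb_ro b x2 x1).imp <| (fb_ro b x1 x0).imp
      (fb_ro b x2 x0)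
  have h4 : Ax (fun S => ∀ u v, ro b S u v ∨ ro b S v u) :=
    Ax.of <| FD.all1 <| FD.all1 <| (fb_ro b x1 x0).or (fb_ro b x0 x1)
  have h5 : Ax (fun S => ∀ u, ∃ a c d, Mx3 (ro b S) (gr S) a c d ∧ (u = a ∨ u = c ∨ u = d)) :=
    Ax.of <| FD.all1 <| FD.ex1 <| FD.ex1 <| FD.ex1 <| (fd_mx b x2 x1 x0).and <|
      (FD.eq x3 x2).or <| (FD.eq x3 x1).or (FD.eq x3 x0)
  have h6 : Ax (fun S => ∀ a c d, Mx3 (ro b S) (gr S) a c d → ∀ a' c' d',
      Mx3 (ro b S) (gr S) a' c' d' → Pr (ro b S) a c d a' c' d') :=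
    Ax.of <| FD.all1 <| FD.all1 <| FD.all1 <| (fd_mx b x2 x1 x0).imp <|
      FD.all1 <| FD.all1 <| FD.all1 <| (fd_mx b x2 x1 x0).imp <|
      (fb_lt b x3 x2).and <| (fb_lt b x5 x1).and <| (fb_lt b x3 x1).and <|
      ((FD.eq x5 x2).iff (FD.eq x4 x1)).and <| ((FD.eq x5 x2).iff (FD.eq x3 x0)).and
      ((fb_ro b x3 x0).iff (fb_ro b x2 x5))
  have h7 : Ax (fun S => ∀ u v w, gr S u v w ↔ ∃ a c d, Mx3 (ro b S) (gr S) a c d ∧
      ro b S u a ∧ ro b S v c ∧ ro b S w d) :=
    Ax.of <| FD.all1 <| FD.all1 <| FD.all1 <| (fd_gr x2 x1 x0).iff <| FD.ex1 <| FD.ex1 <|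
      FD.ex1 <| (fd_mx b x2 x1 x0).and <| (fb_ro b x5 x2).and <| (fb_ro b x4 x1).and
      (fb_ro b x3 x0)
  refine (h1.and <| h2.and <| h3.and <| h4.and <| h5.and <| h6.and h7).congr fun S => ?_
  exact ⟨fun ⟨a, c, d, e, f, g, h⟩ => ⟨a, c, d, e, f, g, h⟩,
    fun ⟨a, c, d, e, f, g, h⟩ => ⟨a, c, d, e, f, g, h⟩⟩

theorem p1_inf {r : ℕ → ℕ → Prop} {R : ℕ → ℕ → ℕ → Prop} (h : W3 r R) (N : ℕ) :
    ∃ u, N ≤ u ∧ P1 r R u := by
  by_contra hcon
  push Not at hcon
  have hf : {u | P1 r R u}.Finite := (Set.finite_Iio N).subset fun u hu => by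
    by_contra h1
    exact hcon u (not_lt.1 h1) hu
  obtain ⟨-, -, θ, -⟩ := w3_rep h
  have : Finite {u // P1 r R u} := hf
  have : Finite (Fin 3 × {u // P1 r R u}) := inferInstance
  have : Finite ℕ := Finite.of_equiv _ θ.symm
  exact not_finite ℕ

/-- the interpretation -/
def IT (b : Bool) : Itp L2 L23 where
  W := fun S => W3 (ro b S) (gr S)
  axW := ax_w3 b
  dom := fun S => P1 (ro b S) (gr S)
  rel := fun {n} Q => match n, Q with
    | _, R2.fst => fun S v => lt (ro b S) (v 0) (v 1)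
    | _, R2.snd => fun S v => k2 (ro b S) (gr S) (v 0) (v 1)
  fdom := (fu_p1 b ()).mono fun _ _ => trivial
  frel := fun {n} Q => match n, Q with
    | _, R2.fst => (fb_lt b 0 1).mono fun _ _ => trivial
    | _, R2.snd => (fb_k2 b 0 1).mono fun _ _ => trivial
  inf := fun _ h N => p1_inf h N

/-- structures for the language -/
@[reducible] def of23 (l : ℕ → ℕ → Prop) (k : ℕ → ℕ → ℕ → Prop) : L23.Structure ℕ :=
  { funMap := fun {_} f => isEmptyElim f
    RelMap := fun {n} Q => match n, Q with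
      | _, R23.le => fun v => l (v 0) (v 1)
      | _, R23.rel => fun v => k (v 0) (v 1) (v 2) }

theorem three_eta (v : Fin 3 → ℕ) : ![v 0, v 1, v 2] = v := by
  funext m
  fin_cases m <;> rfl

/-- isomorphism -/
theorem siso3 {S S' : L23.Structure ℕ} (σ : Equiv.Perm ℕ)
    (h1 : ∀ u v, gl S' (σ u) (σ v) ↔ gl S u v)
    (h2 : ∀ u v w, gr S' (σ u) (σ v) (σ w) ↔ gr S u v w) : SIso S S' := by
  obtain ⟨f, -⟩ := siso_of (S := S) (S' := S') σ (fun n Q v => by
    cases Q with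
    | le =>
      have e1 := two_eta v
      have e2 : (fun i => σ (v i)) = ![σ (v 0), σ (v 1)] := (two_eta fun i => σ (v i)).symm
      rw [e2, ← e1]
      exact h1 (v 0) (v 1)
    | rel =>
      have e1 := three_eta v
      have e2 : (fun i => σ (v i)) = ![σ (v 0), σ (v 1), σ (v 2)] :=
        (three_eta fun i => σ (v i)).symm
      rw [e2, ← e1]
      exact h2 (v 0) (v 1) (v 2))
  exact ⟨f⟩

theorem fl_eq (b : Bool) {r r' : ℕ → ℕ → Prop} {σ : ℕ → ℕ}
    (h : ∀ u v, fl b r' (σ u) (σ v) ↔ fl b r u v) (u v : ℕ) : r' (σ u) (σ v) ↔ r u v := by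
  cases b with
  | true => exact h u v
  | false => exact h v u

/-- the interpreted structure determines the structure -/
theorem cnt_IT (b : Bool) : Itp.Cnt (IT b) Unit (fun _ => ()) := by
  refine ⟨fun S S' h h' hi _ => ?_, fun f _ _ c => BP.const _⟩
  obtain ⟨π, hπ⟩ := ((IT b).D_iso_iff h h').1 hi
  obtain ⟨l1, k1, θ, hθ, -⟩ := w3_rep h
  obtain ⟨l1', k1', θ', hθ', -⟩ := w3_rep h'
  have el : ∀ a c, lA (ro b S') (gr S') (π a) (π c) ↔ lA (ro b S) (gr S) a c := fun a c =>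
    (hπ (R := R2.fst) ![a, c]).symm
  have ek : ∀ a c, kA (ro b S') (gr S') (π a) (π c) ↔ kA (ro b S) (gr S) a c := fun a c =>
    (hπ (R := R2.snd) ![a, c]).symm
  let e : Equiv.Perm ℕ := θ.trans (((Equiv.refl (Fin 3)).prodCongr π).trans θ'.symm)
  have he : ∀ u, θ' (e u) = ((θ u).1, π (θ u).2) := fun u => by
    show θ' (θ'.symm _) = _
    rw [Equiv.apply_symm_apply]
    rfl
  refine siso3 e (fl_eq b fun u v => ?_) fun u v w => ?_
  · show ro b S' (e u) (e v) ↔ ro b S u v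
    rw [hθ'.1, hθ.1, he, he]
    exact cle_map π el ek _ _
  · rw [hθ'.2, hθ.2, he, he, he]
    exact cr_map π el ek _ _ _

/-- existence -/
theorem ex_IT (b : Bool) (M : L2.Structure ℕ) (hl : SLO (g1 M)) (hk : SLO (g2 M)) :
    ∃ S, (IT b).W S ∧ SIso ((IT b).D S) M := by
  obtain ⟨π⟩ : Nonempty (ℕ ≃ Fin 3 × ℕ) := nonempty_equiv_of_countable
  let S := of23 (fl b fun u v => cle (g1 M) (g2 M) (π u) (π v))
    (fun u v w => cr (g1 M) (g2 M) (π u) (π v) (π w))
  have e1 : ro b S = fun u v => cle (g1 M) (g2 M) (π u) (π v) := fl_fl b _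
  have e2 : gr S = fun u v w => cr (g1 M) (g2 M) (π u) (π v) (π w) := rfl
  have sl : Sl (g1 M) := ⟨hl.irrefl, hl.trans, fun a c => by
    by_cases hac : a = c
    · exact Or.inl hac
    · exact Or.inr (hl.total a c hac)⟩
  have sk : Sl (g2 M) := ⟨hk.irrefl, hk.trans, fun a c => by
    by_cases hac : a = c
    · exact Or.inl hac
    · exact Or.inr (hk.total a c hac)⟩
  have hrep : Rep (g1 M) (g2 M) (ro b S) (gr S) π := by
    rw [e1, e2]
    exact ⟨fun _ _ => Iff.rfl, fun _ _ _ => Iff.rfl⟩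
  have hW : (IT b).W S := rep_w3 sl sk hrep
  have hmx := rep_max sl sk hrep
  have hp : ∀ u, P1 (ro b S) (gr S) u ↔ ∃ a, π u = (1, a) := by
    intro u
    constructor
    · rintro ⟨v, w, h1⟩
      obtain ⟨a, h2, -⟩ := (hmx _ _ _).1 h1
      exact ⟨a, h2⟩
    · rintro ⟨a, h1⟩
      exact ⟨π.symm (2, a), π.symm (0, a), (hmx _ _ _).2 ⟨a, h1, π.apply_symm_apply _,
        π.apply_symm_apply _⟩⟩
  let ε : ℕ ≃ {u // P1 (ro b S) (gr S) u} :=
    { toFun := fun n => ⟨π.symm (1, n), (hp _).2 ⟨n, π.apply_symm_apply _⟩⟩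
      invFun := fun u => (π u.1).2
      left_inv := fun n => by
        show (π (π.symm (1, n))).2 = n
        rw [π.apply_symm_apply]
      right_inv := fun u => by
        obtain ⟨a, ha⟩ := (hp _).1 u.2
        refine Subtype.ext ?_
        show π.symm (1, (π u.1).2) = u.1
        rw [ha, ← ha, π.symm_apply_apply] }
  have hε : ∀ n, (ε n : ℕ) = π.symm (1, n) := fun n => rfl
  refine ⟨S, hW, (IT b).D_iso hW ε fun {n} Q u => ?_⟩
  cases Q with
  | fst =>
    show _ ↔ lt (ro b S) (ε (u 0)) (ε (u 1))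
    rw [← two_eta u]
    show g1 M (u 0) (u 1) ↔ lt (ro b S) (ε (u 0)) (ε (u 1))
    unfold lt
    rw [hrep.1, hε, hε, π.apply_symm_apply, π.apply_symm_apply, cle1]
    constructor
    · intro h1
      refine ⟨Or.inr h1, fun h2 => ?_⟩
      have h3 : u 0 = u 1 := congrArg Prod.snd (π.symm.injective h2)
      rw [h3] at h1
      exact hl.irrefl _ h1
    · rintro ⟨h1 | h1, h2⟩
      · exact absurd (by rw [h1]) h2
      · exact h1
  | snd =>
    show _ ↔ k2 (ro b S) (gr S) (ε (u 0)) (ε (u 1))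
    rw [← two_eta u]
    show g2 M (u 0) (u 1) ↔ k2 (ro b S) (gr S) (ε (u 0)) (ε (u 1))
    have key : ∀ c d, lt (ro b S) (π.symm (2, c)) (π.symm (2, d)) ↔ g2 M c d := by
      intro c d
      unfold lt
      rw [hrep.1, π.apply_symm_apply, π.apply_symm_apply, cle2]
      constructor
      · rintro ⟨h1 | h1, h2⟩
        · exact absurd (by rw [h1]) h2
        · exact h1
      · intro h1
        refine ⟨Or.inr h1, fun h2 => ?_⟩
        have h3 : c = d := congrArg Prod.snd (π.symm.injective h2)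
        rw [h3] at h1
        exact hk.irrefl _ h1
    rw [hε, hε, ← key]
    constructor
    · intro h1
      exact ⟨π.symm (2, u 0), π.symm (0, u 0), π.symm (2, u 1), π.symm (0, u 1),
        (hmx _ _ _).2 ⟨u 0, π.apply_symm_apply _, π.apply_symm_apply _, π.apply_symm_apply _⟩,
        (hmx _ _ _).2 ⟨u 1, π.apply_symm_apply _, π.apply_symm_apply _, π.apply_symm_apply _⟩,
        h1⟩
    · rintro ⟨v, w, v', w', h1, h2, h3⟩
      obtain ⟨a, q1, q2, -⟩ := (hmx _ _ _).1 h1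
      obtain ⟨a', q1', q2', -⟩ := (hmx _ _ _).1 h2
      rw [π.apply_symm_apply] at q1 q1'
      have ea : u 0 = a := congrArg Prod.snd q1
      have ea' : u 1 = a' := congrArg Prod.snd q1'
      have ev : v = π.symm (2, u 0) := by rw [ea, ← q2, π.symm_apply_apply]
      have ev' : v' = π.symm (2, u 1) := by rw [ea', ← q2', π.symm_apply_apply]
      rw [ev, ev'] at h3
      exact h3

/-- linear orders with a ternary relation which is downward closed for the order or its inverse -/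
def Dn (b : Bool) (S : L23.Structure ℕ) : Prop :=
  (∀ u, ro b S u u) ∧ (∀ u v, ro b S u v → ro b S v u → u = v) ∧
    (∀ u v w, ro b S u v → ro b S v w → ro b S u w) ∧ (∀ u v, ro b S u v ∨ ro b S v u) ∧
    ∀ u v : Fin 3 → ℕ, @Structure.RelMap L23 ℕ S 3 R23.rel v → (∀ k, ro b S (u k) (v k)) →
      @Structure.RelMap L23 ℕ S 3 R23.rel u

theorem w3_dn {b : Bool} {S : L23.Structure ℕ} (h : W3 (ro b S) (gr S)) : Dn b S := by
  refine ⟨h.refl, h.anti, h.trans, h.total, fun u v h1 h2 => ?_⟩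
  rw [← three_eta u]
  rw [← three_eta v] at h1
  obtain ⟨a, c, d, h3, h4, h5, h6⟩ := (h.gen _ _ _).1 h1
  exact (h.gen _ _ _).2 ⟨a, c, d, h3, h.trans _ _ _ (h2 0) h4, h.trans _ _ _ (h2 1) h5,
    h.trans _ _ _ (h2 2) h6⟩

theorem red_tri (b : Bool) (hV : ∀ T' : L23.Theory, (∀ S : L23.Structure ℕ,
    @Theory.Model L23 ℕ S T' → Dn b S) → Vaught L23 T') (T : LG.Theory) : Vaught LG T := by
  have := countable_L2
  refine red_dd (fun T1 hT1 => ?_) T
  refine (IT b).transfer (cnt_IT b) T1 (fun M hM => ?_) fun T' hT' =>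
    hV T' fun S hS => w3_dn (hT' S hS).1
  obtain ⟨h1, h2⟩ := hT1 M hM
  exact ex_IT b M h1.slo h2.slo

/-- all theories from the complete theories of linear orders with a downward closed ternary
relation -/
theorem full_tri (b : Bool) (hV : ∀ T : L23.Theory, T.IsComplete →
      (∀ S : L23.Structure ℕ, @Theory.Model L23 ℕ S T → Dn b S) → VaughtF L23 T)
    (L : FirstOrder.Language.{0, 0}) (hL : Countable L.Symbols) (T : L.Theory) :
    VaughtF L T := by
  have := countable_L23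
  exact all_of_LG (red_tri b fun T hT => compl hV T hT) L hL T

end Pool.Agent.H2.LP
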