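import Pool.Agent.H2.LP.Ord
import Pool.Agent.H2.LP.Fo
import Pool.Agent.H2.LP.Tri
import Pool.Agent.H2.LP.Shp

set_option autoImplicit false

/-!
The cases of the classification.
-/

namespace Pool.Agent.H2.LP

open FirstOrder FirstOrder.Language
open Pool.Agent.W889.FO
open Pool.Agent.TH686.FO (L2 R2 g1 g2)
open Pool.Agent.TH686.DO (two_eta)

/-- near-unanimity operations -/
def NU {r : ℕ} (m : (Fin r → ℕ) → ℕ) : Prop :=
  ∀ (k : Fin r) (u v : ℕ), m (Function.update (fun _ => u) k v) = u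

theorem upd0 (u v : ℕ) : Function.update (fun _ : Fin 3 => u) 0 v = ![v, u, u] := by
  funext j
  fin_cases j <;> rfl

theorem upd1 (u v : ℕ) : Function.update (fun _ : Fin 3 => u) 1 v = ![u, v, u] := by
  funext j
  fin_cases j <;> rfl

theorem upd2 (u v : ℕ) : Function.update (fun _ : Fin 3 => u) 2 v = ![u, u, v] := by
  funext j
  fin_cases j <;> rfl

theorem eta3 (f : Fin 3 → ℕ) : f = ![f 0, f 1, f 2] := by
  funext j
  fin_cases j <;> rfl

/-- a monotone ternary near-unanimity operation is the median -/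
theorem nu_md {le : ℕ → ℕ → Prop} (h : Lin le) {m : (Fin 3 → ℕ) → ℕ} (hm : NU m)
    (hmo : ∀ x y : Fin 3 → ℕ, (∀ i, le (x i) (y i)) → le (m x) (m y)) : m = md3 le := by
  funext f
  rw [eta3 f]
  refine maj_md h (m := fun u v w => m ![u, v, w]) (fun u v => ?_) (fun u v => ?_)
    (fun u v => ?_) (fun u v w u' v' w' a b c => hmo _ _ fun i => ?_) (f 0) (f 1) (f 2)
  · have := hm 2 u v
    rw [upd2] at this
    exact this
  · have := hm 1 u v
    rw [upd1] at this
    exact this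
  · have := hm 0 u v
    rw [upd0] at this
    exact this
  · fin_cases i
    · exact a
    · exact b
    · exact c

/-- operations that preserve a binary relation symbol -/
theorem mono_of {L : FirstOrder.Language.{0, 0}} {S : L.Structure ℕ} {Q : L.Relations 2} {r : ℕ}
    {m : (Fin r → ℕ) → ℕ} (h : PolG S m) (x y : Fin r → ℕ) (hxy : ∀ i, rl S Q (x i) (y i)) :
    rl S Q (m x) (m y) := by
  have h1 := h.1 2 Q (fun p => ![x p, y p]) hxy
  have e : (fun j => m fun p => (![x p, y p] : Fin 2 → ℕ) j) = ![m x, m y] := by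
    funext j
    fin_cases j <;> rfl
  rw [e] at h1
  exact h1

/-- majority polymorphisms -/
theorem fo_nu {L : FirstOrder.Language.{0, 0}} (hL : Countable L.Symbols) (Q : L.Relations 2)
    (T : L.Theory) (h : ∀ S : L.Structure ℕ, @Theory.Model L ℕ S T →
      Lin (rl S Q) ∧ ∃ m : (Fin 3 → ℕ) → ℕ, NU m ∧ PolG S m) : VaughtF L T := by
  refine fo_md hL Q T fun S hS => ?_
  obtain ⟨h1, m, h2, h3⟩ := h S hS
  have e := nu_md h1 h2 (mono_of h3)
  subst e
  exact ⟨h1, fun n R => cl_three.1 (h3.1 n R), fun n F => cl_three.1 (gr_cl F (h3.2 n F))⟩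

/-- a theory without models on the natural numbers -/
theorem no_model {L : FirstOrder.Language.{0, 0}} (T : L.Theory)
    (h : ¬ ∃ S : L.Structure ℕ, @Theory.Model L ℕ S T) : VaughtF L T := by
  left
  let S0 : L.Structure ℕ := { funMap := fun {_} _ _ => 0, RelMap := fun {_} _ _ => False }
  exact ⟨fun _ => S0, fun S hS => absurd ⟨S, hS⟩ h⟩

/-- operations which are defined from the order -/
abbrev Opn : Type := Σ r : ℕ, (Fin r → Fin r → Bool) → Fin r

/-- the Boolean conditions -/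
def ComT (c : Opn) : Prop := ∀ A B C : Fin c.1 → Bool, ob c.2 A = true → ob c.2 B = true →
  ob c.2 C = true → ∃ i, A i = true ∧ B i = true ∧ C i = true

def ComF (c : Opn) : Prop := ∀ A B C : Fin c.1 → Bool, ob c.2 A = false → ob c.2 B = false →
  ob c.2 C = false → ∃ i, A i = false ∧ B i = false ∧ C i = false

def MeetO (c : Opn) : Prop :=
  ∃ I : Finset (Fin c.1), ∀ A : Fin c.1 → Bool, ob c.2 A = true ↔ ∀ i ∈ I, A i = true

def JoinO (c : Opn) : Prop :=
  ∃ I : Finset (Fin c.1), ∀ A : Fin c.1 → Bool, ob c.2 A = true ↔ ∃ i ∈ I, A i = true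

/-- monotone in all linear orders -/
def MonO (c : Opn) : Prop := ∀ le, Lin le → OM le c.2

theorem bool_false_iff {r : ℕ} {t : LatticeTerm r} {c : (Fin r → Fin r → Bool) → Fin r}
    (h : ∀ A, t.bool A = true ↔ ob c A = true) (A : Fin r → Bool) :
    t.bool A = false ↔ ob c A = false := by
  rw [← Bool.not_eq_true, ← Bool.not_eq_true, h]

/-- the positive half of the classification -/
theorem fo_gen {L : FirstOrder.Language.{0, 0}} (hL : Countable L.Symbols) (Q : L.Relations 2)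
    (T : L.Theory) (Γ : Set Opn)
    (hΓ : ¬ ((∀ c ∈ Γ, MonO c) ∧ ((∀ c ∈ Γ, ComT c) ∨ ∀ c ∈ Γ, ComF c)))
    (h : ∀ S : L.Structure ℕ, @Theory.Model L ℕ S T →
      Lin (rl S Q) ∧ ∀ c ∈ Γ, PolG S (ov (rl S Q) c.2)) : VaughtF L T := by
  by_cases hm : ∃ S : L.Structure ℕ, @Theory.Model L ℕ S T
  swap
  · exact no_model T hm
  obtain ⟨S0, hS0⟩ := hm
  obtain ⟨h1, h2⟩ := h S0 hS0
  have hmon : ∀ c ∈ Γ, MonO c := fun c hc le hle => om_all hle h1 (mono_of (h2 c hc))
  have hterm : ∀ c ∈ Γ, ∃ t : LatticeTerm c.1, (∀ A, t.bool A = true ↔ ob c.2 A = true) ∧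
      ∀ le, Lin le → t.value le = ov le c.2 := fun c hc => op_term h1 (hmon c hc _ h1)
  have hn : ¬ ((∀ c ∈ Γ, ComT c) ∨ ∀ c ∈ Γ, ComF c) := fun h3 => hΓ ⟨hmon, h3⟩
  push Not at hn
  obtain ⟨⟨c, hc, hc'⟩, d, hd, hd'⟩ := hn
  obtain ⟨t, ht, ht'⟩ := hterm c hc
  obtain ⟨s, hs, hs'⟩ := hterm d hd
  have k1 : ¬ Common t := fun h3 => hc' fun A B C a b c =>
    h3 A B C ((ht A).2 a) ((ht B).2 b) ((ht C).2 c)
  have k2 : ¬ CoCommon s := fun h3 => hd' fun A B C a b c =>
    h3 A B C ((bool_false_iff hs A).2 a) ((bool_false_iff hs B).2 b) ((bool_false_iff hs C).2 c)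
  refine fo_md hL Q T fun S hS => ?_
  obtain ⟨h4, h5⟩ := h S hS
  have p1 := h5 c hc
  have p2 := h5 d hd
  rw [← ht' _ h4] at p1
  rw [← hs' _ h4] at p2
  exact ⟨h4, fun n R => gen_md h4 k1 k2 (p1.1 n R) (p2.1 n R),
    fun n F => gen_md h4 k1 k2 (gr_cl F (p1.2 n F)) (gr_cl F (p2.2 n F))⟩

/-- the positive half for relations of arity at most two and functions of arity at most one -/
theorem fo_bin {L : FirstOrder.Language.{0, 0}} (hL : Countable L.Symbols)
    (hb : ∀ n, 2 < n → IsEmpty (L.Relations n)) (hb' : ∀ n, 1 < n → IsEmpty (L.Functions n))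
    (Q : L.Relations 2) (T : L.Theory) (Γ : Set Opn)
    (hΓ : ¬ ((∀ c ∈ Γ, MonO c) ∧ ((∀ c ∈ Γ, MeetO c) ∨ ∀ c ∈ Γ, JoinO c)))
    (h : ∀ S : L.Structure ℕ, @Theory.Model L ℕ S T →
      Lin (rl S Q) ∧ ∀ c ∈ Γ, PolG S (ov (rl S Q) c.2)) : VaughtF L T := by
  by_cases hm : ∃ S : L.Structure ℕ, @Theory.Model L ℕ S T
  swap
  · exact no_model T hm
  obtain ⟨S0, hS0⟩ := hm
  obtain ⟨h1, h2⟩ := h S0 hS0
  have hmon : ∀ c ∈ Γ, MonO c := fun c hc le hle => om_all hle h1 (mono_of (h2 c hc))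
  have hterm : ∀ c ∈ Γ, ∃ t : LatticeTerm c.1, (∀ A, t.bool A = true ↔ ob c.2 A = true) ∧
      ∀ le, Lin le → t.value le = ov le c.2 := fun c hc => op_term h1 (hmon c hc _ h1)
  have hn : ¬ ((∀ c ∈ Γ, MeetO c) ∨ ∀ c ∈ Γ, JoinO c) := fun h3 => hΓ ⟨hmon, h3⟩
  push Not at hn
  obtain ⟨⟨c, hc, hc'⟩, d, hd, hd'⟩ := hn
  obtain ⟨t, ht, ht'⟩ := hterm c hc
  obtain ⟨s, hs, hs'⟩ := hterm d hd
  have k1 : ¬ Meet t := fun ⟨I, hI⟩ => hc' ⟨I, fun A => (ht A).symm.trans (hI A)⟩
  have k2 : ¬ Join s := fun ⟨I, hI⟩ => hd' ⟨I, fun A => (hs A).symm.trans (hI A)⟩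
  refine fo_md hL Q T fun S hS => ?_
  obtain ⟨h4, h5⟩ := h S hS
  have p1 := h5 c hc
  have p2 := h5 d hd
  rw [← ht' _ h4] at p1
  rw [← hs' _ h4] at p2
  refine ⟨h4, fun n R => ?_, fun n F => ?_⟩
  · by_cases hn2 : n ≤ 2
    · exact bin_md h4 hn2 k1 k2 (p1.1 n R) (p2.1 n R)
    · exact ((hb n (not_le.1 hn2)).false R).elim
  · by_cases hn1 : n ≤ 1
    · exact bin_md h4 (by omega) k1 k2 (gr_cl F (p1.2 n F)) (gr_cl F (p2.2 n F))
    · exact ((hb' n (not_le.1 hn1)).false F).elim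

/-! ### the negative halves -/

theorem pol_tri {S : L23.Structure ℕ} {r : ℕ} {m : (Fin r → ℕ) → ℕ}
    (h1 : ClG m fun v : Fin 2 → ℕ => gl S (v 0) (v 1))
    (h2 : ClG m fun v : Fin 3 → ℕ => @Structure.RelMap L23 ℕ S 3 R23.rel v) : PolG S m := by
  refine ⟨fun n R => ?_, fun n F => isEmptyElim F⟩
  cases R with
  | le =>
    intro s hs
    have h3 := h1 s fun p => by
      show @Structure.RelMap L23 ℕ S 2 R23.le ![s p 0, s p 1]
      rw [two_eta]
      exact hs p
    rw [← two_eta fun j => m fun p => s p j]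
    exact h3
  | rel => exact h2

theorem pol_two {S : L2.Structure ℕ} {r : ℕ} {m : (Fin r → ℕ) → ℕ}
    (h1 : ClG m fun v : Fin 2 → ℕ => g1 S (v 0) (v 1))
    (h2 : ClG m fun v : Fin 2 → ℕ => g2 S (v 0) (v 1)) : PolG S m := by
  refine ⟨fun n R => ?_, fun n F => isEmptyElim F⟩
  cases R with
  | fst =>
    intro s hs
    have h3 := h1 s fun p => by
      show @Structure.RelMap L2 ℕ S 2 R2.fst ![s p 0, s p 1]
      rw [two_eta]
      exact hs p
    rw [← two_eta fun j => m fun p => s p j]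
    exact h3
  | snd =>
    intro s hs
    have h3 := h2 s fun p => by
      show @Structure.RelMap L2 ℕ S 2 R2.snd ![s p 0, s p 1]
      rw [two_eta]
      exact hs p
    rw [← two_eta fun j => m fun p => s p j]
    exact h3

theorem dn_lin {b : Bool} {S : L23.Structure ℕ} (h : Dn b S) : Lin (ro b S) :=
  ⟨h.1, h.2.1, h.2.2.1, h.2.2.2.1⟩

theorem dn_lin' {b : Bool} {S : L23.Structure ℕ} (h : Dn b S) : Lin (gl S) := by
  have h1 := dn_lin h
  cases b with
  | true => exact h1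
  | false => exact h1.op

theorem dn_pol {b : Bool} {S : L23.Structure ℕ} (h : Dn b S) {r : ℕ} {t : LatticeTerm r}
    (ht : if b = true then Common t else CoCommon t) : PolG S (t.value (gl S)) := by
  have hl := dn_lin' h
  refine pol_tri (cl_le hl t) ?_
  cases b with
  | true => exact cl_down hl ht h.2.2.2.2
  | false => exact cl_up hl ht h.2.2.2.2

theorem mn_pol {S : L2.Structure ℕ} (h : Sh.Mn S) {r : ℕ} {t : LatticeTerm r} (ht : Meet t) :
    PolG S (t.value (g1 S)) :=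
  pol_two (cl_le h.1 t) (cl_meet h.1 ht h.2)

theorem mx_pol {S : L2.Structure ℕ} (h : Sh.Mx S) {r : ℕ} {t : LatticeTerm r} (ht : Join t) :
    PolG S (t.value (g1 S)) :=
  pol_two (cl_le h.1 t) (cl_join h.1 ht h.2)

/-- the negative half -/
theorem hard_gen {Γ : Set Opn}
    (hΓ : (∀ c ∈ Γ, MonO c) ∧ ((∀ c ∈ Γ, ComT c) ∨ ∀ c ∈ Γ, ComF c))
    (hV : ∀ T : L23.Theory, T.IsComplete → (∀ S : L23.Structure ℕ, @Theory.Model L23 ℕ S T →
      Lin (gl S) ∧ ∀ c ∈ Γ, PolG S (ov (gl S) c.2)) → VaughtF L23 T)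
    (L : FirstOrder.Language.{0, 0}) (hL : Countable L.Symbols) (T : L.Theory) :
    VaughtF L T := by
  obtain ⟨hmon, hT | hF⟩ := hΓ
  · refine full_tri true (fun T' hT' hS => hV T' hT' fun S hm => ?_) L hL T
    have hd := hS S hm
    have hl := dn_lin' hd
    refine ⟨hl, fun c hc => ?_⟩
    obtain ⟨t, ht, ht'⟩ := op_term hl (hmon c hc _ hl)
    rw [← ht' _ hl]
    have k1 : Common t := fun A B C a b d => hT c hc A B C ((ht A).1 a) ((ht B).1 b) ((ht C).1 d)
    exact dn_pol hd (t := t) k1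
  · refine full_tri false (fun T' hT' hS => hV T' hT' fun S hm => ?_) L hL T
    have hd := hS S hm
    have hl := dn_lin' hd
    refine ⟨hl, fun c hc => ?_⟩
    obtain ⟨t, ht, ht'⟩ := op_term hl (hmon c hc _ hl)
    rw [← ht' _ hl]
    have k1 : CoCommon t := fun A B C a b d => hF c hc A B C ((bool_false_iff ht A).1 a)
      ((bool_false_iff ht B).1 b) ((bool_false_iff ht C).1 d)
    exact dn_pol hd (t := t) k1

/-- the negative half for binary relations -/
theorem hard_bin {Γ : Set Opn}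
    (hΓ : (∀ c ∈ Γ, MonO c) ∧ ((∀ c ∈ Γ, MeetO c) ∨ ∀ c ∈ Γ, JoinO c))
    (hV : ∀ T : L2.Theory, T.IsComplete → (∀ S : L2.Structure ℕ, @Theory.Model L2 ℕ S T →
      Lin (g1 S) ∧ ∀ c ∈ Γ, PolG S (ov (g1 S) c.2)) → VaughtF L2 T)
    (L : FirstOrder.Language.{0, 0}) (hL : Countable L.Symbols) (T : L.Theory) :
    VaughtF L T := by
  obtain ⟨hmon, hT | hF⟩ := hΓ
  · refine Sh.full_min (fun T' hT' hS => hV T' hT' fun S hm => ?_) L hL T
    have hd := hS S hm
    refine ⟨hd.1, fun c hc => ?_⟩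
    obtain ⟨t, ht, ht'⟩ := op_term hd.1 (hmon c hc _ hd.1)
    rw [← ht' _ hd.1]
    obtain ⟨I, hI⟩ := hT c hc
    exact mn_pol hd ⟨I, fun A => (ht A).trans (hI A)⟩
  · refine Sh.full_max (fun T' hT' hS => hV T' hT' fun S hm => ?_) L hL T
    have hd := hS S hm
    refine ⟨hd.1, fun c hc => ?_⟩
    obtain ⟨t, ht, ht'⟩ := op_term hd.1 (hmon c hc _ hd.1)
    rw [← ht' _ hd.1]
    obtain ⟨I, hI⟩ := hF c hc
    exact mx_pol hd ⟨I, fun A => (ht A).trans (hI A)⟩

/-! ### a near-unanimity operation with four arguments -/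

/-- the second smallest of four elements -/
def t4 : LatticeTerm 4 :=
  .sup (.sup (.inf (.inf (.var 0) (.var 1)) (.var 2)) (.inf (.inf (.var 0) (.var 1)) (.var 3)))
    (.sup (.inf (.inf (.var 0) (.var 2)) (.var 3)) (.inf (.inf (.var 1) (.var 2)) (.var 3)))

theorem bool_t4 (A : Fin 4 → Bool) : t4.bool A = true ↔
    (((A 0 = true ∧ A 1 = true) ∧ A 2 = true) ∨ ((A 0 = true ∧ A 1 = true) ∧ A 3 = true)) ∨
    (((A 0 = true ∧ A 2 = true) ∧ A 3 = true) ∨ ((A 1 = true ∧ A 2 = true) ∧ A 3 = true)) := by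
  show (((A 0 && A 1 && A 2) || (A 0 && A 1 && A 3)) ||
    ((A 0 && A 2 && A 3) || (A 1 && A 2 && A 3))) = true ↔ _
  simp only [Bool.or_eq_true, Bool.and_eq_true]

theorem t4_all {A : Fin 4 → Bool} (h : t4.bool A = true) : ∃ k, ∀ i, i ≠ k → A i = true := by
  rw [bool_t4] at h
  rcases h with (⟨⟨a, b⟩, c⟩ | ⟨⟨a, b⟩, c⟩) | (⟨⟨a, b⟩, c⟩ | ⟨⟨a, b⟩, c⟩)
  · refine ⟨3, fun i hi => ?_⟩
    fin_cases i
    · exact a
    · exact b
    · exact c
    · exact absurd rfl hi
  · refine ⟨2, fun i hi => ?_⟩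
    fin_cases i
    · exact a
    · exact b
    · exact absurd rfl hi
    · exact c
  · refine ⟨1, fun i hi => ?_⟩
    fin_cases i
    · exact a
    · exact absurd rfl hi
    · exact b
    · exact c
  · refine ⟨0, fun i hi => ?_⟩
    fin_cases i
    · exact absurd rfl hi
    · exact a
    · exact b
    · exact c

theorem com_t4 : Common t4 := by
  intro A B C hA hB hC
  obtain ⟨k1, h1⟩ := t4_all hA
  obtain ⟨k2, h2⟩ := t4_all hB
  obtain ⟨k3, h3⟩ := t4_all hC
  have key : ∀ k1 k2 k3 : Fin 4, ∃ i, i ≠ k1 ∧ i ≠ k2 ∧ i ≠ k3 := by decide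
  obtain ⟨i, a, b, c⟩ := key k1 k2 k3
  exact ⟨i, h1 i a, h2 i b, h3 i c⟩

theorem nu_t4 {le : ℕ → ℕ → Prop} (h : Lin le) : NU (t4.value le) := by
  classical
  intro k u v
  refine eq_of h fun w => ?_
  rw [LatticeTerm.le_value h, bool_t4]
  simp only [decide_eq_true_iff]
  fin_cases k
  · have e0 : Function.update (fun _ : Fin 4 => u) 0 v 0 = v := rfl
    have e1 : Function.update (fun _ : Fin 4 => u) 0 v 1 = u := rfl
    have e2 : Function.update (fun _ : Fin 4 => u) 0 v 2 = u := rfl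
    have e3 : Function.update (fun _ : Fin 4 => u) 0 v 3 = u := rfl
    simp only [Fin.zero_eta, e0, e1, e2, e3]
    tauto
  · have e0 : Function.update (fun _ : Fin 4 => u) 1 v 0 = u := rfl
    have e1 : Function.update (fun _ : Fin 4 => u) 1 v 1 = v := rfl
    have e2 : Function.update (fun _ : Fin 4 => u) 1 v 2 = u := rfl
    have e3 : Function.update (fun _ : Fin 4 => u) 1 v 3 = u := rfl
    simp only [Fin.mk_one, e0, e1, e2, e3]
    tauto
  · have e0 : Function.update (fun _ : Fin 4 => u) 2 v 0 = u := rfl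
    have e1 : Function.update (fun _ : Fin 4 => u) 2 v 1 = u := rfl
    have e2 : Function.update (fun _ : Fin 4 => u) 2 v 2 = v := rfl
    have e3 : Function.update (fun _ : Fin 4 => u) 2 v 3 = u := rfl
    simp only [Fin.reduceFinMk, e0, e1, e2, e3]
    tauto
  · have e0 : Function.update (fun _ : Fin 4 => u) 3 v 0 = u := rfl
    have e1 : Function.update (fun _ : Fin 4 => u) 3 v 1 = u := rfl
    have e2 : Function.update (fun _ : Fin 4 => u) 3 v 2 = u := rfl
    have e3 : Function.update (fun _ : Fin 4 => u) 3 v 3 = v := rfl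
    simp only [Fin.reduceFinMk, e0, e1, e2, e3]
    tauto

/-- the full conjecture from the structures with a near-unanimity polymorphism with four
arguments -/
theorem hard_nu (hV : ∀ T : L23.Theory, T.IsComplete → (∀ S : L23.Structure ℕ,
      @Theory.Model L23 ℕ S T → Lin (gl S) ∧ ∃ m : (Fin 4 → ℕ) → ℕ, NU m ∧ PolG S m) →
      VaughtF L23 T)
    (L : FirstOrder.Language.{0, 0}) (hL : Countable L.Symbols) (T : L.Theory) :
    VaughtF L T := by
  refine full_tri true (fun T' hT' hS => hV T' hT' fun S hm => ?_) L hL T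
  have hd := hS S hm
  have hl := dn_lin' hd
  exact ⟨hl, t4.value (gl S), nu_t4 hl, dn_pol hd (t := t4) com_t4⟩

theorem countable_L23s : Countable L23.Symbols := by
  have h2 := countable_L23
  have h3 : IsEmpty (Σ n, L23.Functions n) := ⟨fun p => Empty.elim p.2⟩
  exact inferInstanceAs (Countable ((Σ n, L23.Functions n) ⊕ Σ n, L23.Relations n))

end Pool.Agent.H2.LP
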