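import Pool.Agent.H2.LP.Bas
import Pool.Graph.R_seed8.Y558.EC.Fin
import Pool.Graph.R_pool_sql_team_seeded_35f281b4.K7.H41.NC.Fo

set_option autoImplicit false

/-!
Relations of arbitrary arities which are preserved by the median of a linear order are given by
monotone binary relations.
-/

namespace Pool.Agent.H2.LP

open Set MeasureTheory
open Pool.Agent.W889.VC (BP)
open Pool.Agent.H533R2.VO (RS)
open Pool.Agent.H533R2.VS (US UIso UDich VCu)
open Pool.Agent.Y558.EC (XO IX LOs Cov outL)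

/-- the pair -/
def pr {n : ℕ} (u v : ℕ) : Fin n → ℕ := fun j => if j.val = 0 then u else v

theorem comp_pr {n : ℕ} (σ : ℕ → ℕ) (u v : ℕ) : σ ∘ (pr u v : Fin n → ℕ) = pr (σ u) (σ v) := by
  funext j
  show σ (if j.val = 0 then u else v) = if j.val = 0 then σ u else σ v
  split_ifs <;> rfl

variable {a : ℕ → ℕ}

/-- the order -/
def Ql (x : RS a) (q u v : ℕ) : Prop := x q (pr u v) = true

/-- the class: the median is a polymorphism -/
def Pmd (q : ℕ) (x : RS a) : Prop :=
  Lin (Ql x q) ∧ ∀ i, Cl3 (md (Ql x q)) (fun t => x i t = true)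

/-- the monotone relations of the relation `i` -/
def St (x : RS a) (q : ℕ) (s s' : Bool) (i k l u v : ℕ) : Prop :=
  ∃ t : Fin (a i) → ℕ, x i t = true ∧ (∀ h : k < a i, cm (Ql x q) s (t ⟨k, h⟩) u) ∧
    ∀ h : l < a i, cm (Ql x q) s' (t ⟨l, h⟩) v

/-- the number of a sign -/
def sn (s : Bool) : ℕ := if s = true then 0 else 1

/-- the sign of a number -/
def sg (n : ℕ) : Bool := n == 0

theorem sg_sn (s : Bool) : sg (sn s) = s := by cases s <;> rfl

/-- the number of a relation -/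
def en (s s' : Bool) (i k l : ℕ) : ℕ :=
  Nat.pair (Nat.pair (sn s) (sn s')) (Nat.pair i (Nat.pair k l))

/-- the relation with a given number -/
def Sj (x : RS a) (q j u v : ℕ) : Prop :=
  St x q (sg (Nat.unpair (Nat.unpair j).1).1) (sg (Nat.unpair (Nat.unpair j).1).2)
    (Nat.unpair (Nat.unpair j).2).1 (Nat.unpair (Nat.unpair (Nat.unpair j).2).2).1
    (Nat.unpair (Nat.unpair (Nat.unpair j).2).2).2 u v

theorem sj_en (x : RS a) (q : ℕ) (s s' : Bool) (i k l u v : ℕ) :
    Sj x q (en s s' i k l) u v ↔ St x q s s' i k l u v := by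
  unfold Sj en
  simp only [Nat.unpair_pair, sg_sn]

open Classical in
/-- the coding map -/
noncomputable def Th (q : ℕ) (x : US a) : XO 0 :=
  (fun _ u v => decide (Ql x.1 q u v ∧ u ≠ v), fun j u v => decide (Sj x.1 q j u v), x.2)

open Classical in
/-- the decoding map -/
noncomputable def Xi (a : ℕ → ℕ) (z : XO 0) : US a :=
  (fun i w => decide (∀ (s s' : Bool) (k l : Fin (a i)),
    z.2.1 (en s s' i k l) (w k) (w l) = true) && z.2.1 (en true true i (a i) (a i)) 0 0, z.2.2)

theorem lz_th (q : ℕ) (x : US a) (i : Fin 1) (u v : ℕ) :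
    (Th q x).1 i u v = true ↔ Ql x.1 q u v ∧ u ≠ v := by
  classical
  exact decide_eq_true_iff

theorem rz_th (q : ℕ) (x : US a) (j u v : ℕ) : (Th q x).2.1 j u v = true ↔ Sj x.1 q j u v := by
  classical
  exact decide_eq_true_iff

theorem th_en (q : ℕ) (x : US a) (s s' : Bool) (i k l u v : ℕ) :
    (Th q x).2.1 (en s s' i k l) u v = true ↔ St x.1 q s s' i k l u v :=
  (rz_th q x _ u v).trans (sj_en _ _ _ _ _ _ _ _ _)

theorem st_top (x : RS a) (q : ℕ) (s s' : Bool) (i u v : ℕ) :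
    St x q s s' i (a i) (a i) u v ↔ ∃ t, x i t = true := by
  constructor
  · rintro ⟨t, ht, -⟩
    exact ⟨t, ht⟩
  · rintro ⟨t, ht⟩
    exact ⟨t, ht, fun h => absurd h (lt_irrefl _), fun h => absurd h (lt_irrefl _)⟩

theorem cm_refl {le : ℕ → ℕ → Prop} (h : Lin le) (s : Bool) (u : ℕ) : cm le s u u := by
  cases s with
  | true => exact h.refl u
  | false => exact h.refl u

theorem cm_step {le : ℕ → ℕ → Prop} (h : Lin le) (s : Bool) {t u v : ℕ} (h1 : cm le s t u)
    (h2 : cm le s u v) : cm le s t v := by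
  cases s with
  | true => exact h.trans _ _ _ h1 h2
  | false => exact h.trans _ _ _ h2 h1

theorem xi_th {q : ℕ} {x : US a} (h : Pmd q x.1) : Xi a (Th q x) = x := by
  classical
  refine Prod.ext ?_ rfl
  funext i w
  show (decide (∀ (s s' : Bool) (k l : Fin (a i)),
    (Th q x).2.1 (en s s' i k l) (w k) (w l) = true) &&
    (Th q x).2.1 (en true true i (a i) (a i)) 0 0) = x.1 i w
  rw [Bool.eq_iff_iff, Bool.and_eq_true, decide_eq_true_iff, th_en, st_top]
  constructor
  · rintro ⟨h1, h2⟩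
    refine quad h.1 (S := fun t => x.1 i t = true) (h.2 i) w h2 fun s s' k l => ?_
    obtain ⟨t, ht, h3, h4⟩ := (th_en q x s s' i k l _ _).1 (h1 s s' k l)
    exact ⟨t, ht, h3 k.isLt, h4 l.isLt⟩
  · intro h1
    exact ⟨fun s s' k l => (th_en q x s s' i k l _ _).2
      ⟨w, h1, fun _ => cm_refl h.1 _ _, fun _ => cm_refl h.1 _ _⟩, w, h1⟩

theorem los_th {q : ℕ} {x : US a} (h : Pmd q x.1) : LOs (Th q x) := by
  have hL := h.1
  refine ⟨?_, ?_, ?_, ?_, ?_⟩
  · intro i m
    have : ¬ (Th q x).1 i m m = true := by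
      rw [lz_th]
      exact fun h1 => h1.2 rfl
    exact Bool.eq_false_iff.2 this
  · intro i m n k h1 h2
    rw [lz_th] at h1 h2 ⊢
    refine ⟨hL.trans _ _ _ h1.1 h2.1, ?_⟩
    rintro rfl
    exact h1.2 (hL.anti _ _ h1.1 h2.1)
  · intro i m n
    rw [lz_th, lz_th]
    by_cases hmn : m = n
    · exact Or.inl hmn
    · rcases hL.total m n with h1 | h1
      · exact Or.inr (Or.inl ⟨h1, hmn⟩)
      · exact Or.inr (Or.inr ⟨h1, Ne.symm hmn⟩)
  · intro j
    refine ⟨0, sg (Nat.unpair (Nat.unpair j).1).1, fun m m' n h2 => ?_⟩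
    rw [lz_th] at h2
    rw [rz_th, rz_th]
    constructor
    · rintro he ⟨t, ht, h3, h4⟩
      rw [he] at h3
      refine ⟨t, ht, fun hk => ?_, h4⟩
      rw [he]
      exact cm_step hL true (h3 hk) h2.1
    · rintro he ⟨t, ht, h3, h4⟩
      rw [he] at h3
      refine ⟨t, ht, fun hk => ?_, h4⟩
      rw [he]
      exact cm_step hL false (h3 hk) h2.1
  · intro j
    refine ⟨0, sg (Nat.unpair (Nat.unpair j).1).2, fun m n n' h2 => ?_⟩
    rw [lz_th] at h2
    rw [rz_th, rz_th]
    constructor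
    · rintro he ⟨t, ht, h3, h4⟩
      rw [he] at h4
      refine ⟨t, ht, h3, fun hk => ?_⟩
      rw [he]
      exact cm_step hL true (h4 hk) h2.1
    · rintro he ⟨t, ht, h3, h4⟩
      rw [he] at h4
      refine ⟨t, ht, h3, fun hk => ?_⟩
      rw [he]
      exact cm_step hL false (h4 hk) h2.1

section iso

variable {x y : US a} {σ : Equiv.Perm ℕ}
  (hσ : (∀ (i : ℕ) (v : Fin (a i) → ℕ), y.1 i (⇑σ ∘ v) = x.1 i v) ∧ ∀ i u, y.2 i (σ u) = x.2 i u)

include hσ

theorem ql_iso (q u v : ℕ) : Ql y.1 q (σ u) (σ v) ↔ Ql x.1 q u v := by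
  unfold Ql
  rw [← comp_pr, hσ.1]

theorem cm_iso (q : ℕ) (s : Bool) (u v : ℕ) :
    cm (Ql y.1 q) s (σ u) (σ v) ↔ cm (Ql x.1 q) s u v := by
  cases s with
  | true => exact ql_iso hσ q u v
  | false => exact ql_iso hσ q v u

theorem st_iso (q : ℕ) (s s' : Bool) (i k l u v : ℕ) :
    St y.1 q s s' i k l (σ u) (σ v) ↔ St x.1 q s s' i k l u v := by
  constructor
  · rintro ⟨t, ht, h1, h2⟩
    have e : ⇑σ ∘ (⇑σ.symm ∘ t) = t := funext fun j => σ.apply_symm_apply _
    refine ⟨⇑σ.symm ∘ t, ?_, fun hk => ?_, fun hk => ?_⟩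
    · rw [← hσ.1, e]
      exact ht
    · rw [← cm_iso hσ]
      show cm (Ql y.1 q) s (σ (σ.symm (t _))) (σ u)
      rw [σ.apply_symm_apply]
      exact h1 hk
    · rw [← cm_iso hσ]
      show cm (Ql y.1 q) s' (σ (σ.symm (t _))) (σ v)
      rw [σ.apply_symm_apply]
      exact h2 hk
  · rintro ⟨t, ht, h1, h2⟩
    exact ⟨⇑σ ∘ t, by rw [hσ.1]; exact ht, fun hk => (cm_iso hσ _ _ _ _).2 (h1 hk),
      fun hk => (cm_iso hσ _ _ _ _).2 (h2 hk)⟩

theorem th_iso (q : ℕ) : IX σ (Th q x) (Th q y) := by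
  refine ⟨fun i m n => ?_, fun j m n => ?_, hσ.2⟩
  · rw [Bool.eq_iff_iff, lz_th, lz_th, ql_iso hσ, σ.injective.ne_iff]
  · rw [Bool.eq_iff_iff, rz_th, rz_th]
    exact st_iso hσ _ _ _ _ _ _ _ _

end iso

theorem ix_symm {x y : XO 0} {σ : Equiv.Perm ℕ} (h : IX σ x y) : IX σ.symm y x := by
  obtain ⟨h1, h2, h3⟩ := h
  refine ⟨fun i m n => ?_, fun i m n => ?_, fun i m => ?_⟩
  · have := h1 i (σ.symm m) (σ.symm n)
    rw [σ.apply_symm_apply, σ.apply_symm_apply] at this
    exact this.symm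
  · have := h2 i (σ.symm m) (σ.symm n)
    rw [σ.apply_symm_apply, σ.apply_symm_apply] at this
    exact this.symm
  · have := h3 i (σ.symm m)
    rw [σ.apply_symm_apply] at this
    exact this.symm

theorem ix_trans {x y z : XO 0} {σ τ : Equiv.Perm ℕ} (h : IX σ x y) (h' : IX τ y z) :
    IX (σ.trans τ) x z :=
  ⟨fun i _ _ => (h'.1 i _ _).trans (h.1 i _ _), fun i _ _ => (h'.2.1 i _ _).trans (h.2.1 i _ _),
    fun i _ => (h'.2.2 i _).trans (h.2.2 i _)⟩

theorem iso_th {q : ℕ} {x y : US a} (hx : Pmd q x.1) (hy : Pmd q y.1) {σ : Equiv.Perm ℕ}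
    (h : IX σ (Th q x) (Th q y)) : UIso x y := by
  classical
  refine ⟨σ, fun i v => ?_, h.2.2⟩
  have ex : Xi a (Th q x) = x := xi_th hx
  have ey : Xi a (Th q y) = y := xi_th hy
  have hx1 : x.1 i v = (Xi a (Th q x)).1 i v := by rw [ex]
  have hy1 : y.1 i (⇑σ ∘ v) = (Xi a (Th q y)).1 i (⇑σ ∘ v) := by rw [ey]
  rw [hx1, hy1]
  show (decide (∀ (s s' : Bool) (k l : Fin (a i)),
    (Th q y).2.1 (en s s' i k l) (σ (v k)) (σ (v l)) = true) &&
    (Th q y).2.1 (en true true i (a i) (a i)) 0 0) =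
    (decide (∀ (s s' : Bool) (k l : Fin (a i)),
    (Th q x).2.1 (en s s' i k l) (v k) (v l) = true) &&
    (Th q x).2.1 (en true true i (a i) (a i)) 0 0)
  have e0 : (Th q y).2.1 (en true true i (a i) (a i)) 0 0 =
      (Th q x).2.1 (en true true i (a i) (a i)) 0 0 := by
    rw [← h.2.1 _ 0 0, Bool.eq_iff_iff, th_en, th_en, st_top, st_top]
  have e1 : (∀ (s s' : Bool) (k l : Fin (a i)),
      (Th q y).2.1 (en s s' i k l) (σ (v k)) (σ (v l)) = true) ↔
      ∀ (s s' : Bool) (k l : Fin (a i)), (Th q x).2.1 (en s s' i k l) (v k) (v l) = true := by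
    simp only [h.2.1]
  rw [e0]
  congr 1
  rw [Bool.eq_iff_iff, decide_eq_true_iff, decide_eq_true_iff]
  exact e1

theorem bp_at (i : ℕ) (v : Fin (a i) → ℕ) : BP (fun x : US a => x.1 i v = true) := by
  have h1 : Measurable fun x : US a => x.1 i v :=
    (measurable_pi_apply v).comp ((measurable_pi_apply i).comp measurable_fst)
  exact h1 (measurableSet_singleton true)

theorem bp_all {X : Type} [MeasurableSpace X] {c : Prop} {P : c → X → Prop}
    (h : ∀ k, BP (P k)) : BP fun x => ∀ k, P k x := by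
  by_cases hc : c
  · exact (h hc).congr fun x => ⟨fun h1 _ => h1, fun h1 => h1 hc⟩
  · exact (BP.const True).congr fun x => ⟨fun _ k => absurd k hc, fun _ => trivial⟩

theorem bp_cm (q : ℕ) (s : Bool) (u v : ℕ) : BP (fun x : US a => cm (Ql x.1 q) s u v) := by
  cases s with
  | true => exact bp_at _ _
  | false => exact bp_at _ _

theorem bp_st (q : ℕ) (s s' : Bool) (i k l u v : ℕ) :
    BP (fun x : US a => St x.1 q s s' i k l u v) :=
  BP.ex fun _ => (bp_at _ _).and <| (bp_all fun _ => bp_cm _ _ _ _).and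
    (bp_all fun _ => bp_cm _ _ _ _)

theorem m_th (q : ℕ) : Measurable (Th q : US a → XO 0) := by
  refine Measurable.prodMk ?_ (Measurable.prodMk ?_ measurable_snd)
  · refine measurable_pi_lambda _ fun i => measurable_pi_lambda _ fun m =>
      measurable_pi_lambda _ fun n => measurable_to_bool ?_
    have h : BP fun x : US a => (Th q x).1 i m n = true :=
      ((bp_at q (pr m n)).and (BP.const (m ≠ n))).congr fun x => (lz_th q x i m n).symm
    exact h
  · refine measurable_pi_lambda _ fun j => measurable_pi_lambda _ fun m =>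
      measurable_pi_lambda _ fun n => measurable_to_bool ?_
    have h : BP fun x : US a => (Th q x).2.1 j m n = true :=
      (bp_st q _ _ _ _ _ m n).congr fun x => (rz_th q x j m n).symm
    exact h

theorem c_dec {X : Type} [TopologicalSpace X] {p : X → Prop} [∀ x, Decidable (p x)]
    (h : IsClopen {x | p x}) : Continuous fun x => decide (p x) := by
  rw [continuous_discrete_rng]
  intro b
  cases b with
  | false =>
    have e : (fun x => decide (p x)) ⁻¹' {false} = {x | p x}ᶜ := by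
      ext x
      simp
    rw [e]
    exact h.compl.isOpen
  | true =>
    have e : (fun x => decide (p x)) ⁻¹' {true} = {x | p x} := by
      ext x
      simp
    rw [e]
    exact h.isOpen

theorem c_xi (a : ℕ → ℕ) : Continuous (Xi a) := by
  classical
  refine Continuous.prodMk ?_ (continuous_snd.comp continuous_snd)
  refine continuous_pi fun i => continuous_pi fun w => ?_
  have hc : ∀ j u v, Continuous fun z : XO 0 => z.2.1 j u v := fun j u v =>
    (continuous_apply v).comp ((continuous_apply u).comp ((continuous_apply j).comp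
      (continuous_fst.comp continuous_snd)))
  refine (continuous_of_discreteTopology (f := fun p : Bool × Bool => p.1 && p.2)).comp
    (Continuous.prodMk (c_dec ?_) (hc _ _ _))
  have e : {z : XO 0 | ∀ (s s' : Bool) (k l : Fin (a i)),
      z.2.1 (en s s' i k l) (w k) (w l) = true} =
      ⋂ s : Bool, ⋂ s' : Bool, ⋂ k : Fin (a i), ⋂ l : Fin (a i),
        {z : XO 0 | z.2.1 (en s s' i k l) (w k) (w l) = true} := by
    ext z
    simp only [Set.mem_ofPred_eq, Set.mem_iInter]
  rw [e]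
  refine isClopen_iInter_of_finite fun s => isClopen_iInter_of_finite fun s' =>
    isClopen_iInter_of_finite fun k => isClopen_iInter_of_finite fun l => ?_
  exact (isClopen_discrete {true}).preimage (hc _ _ _)

theorem bsX : BorelSpace (XO 0) := by
  have b0 : BorelSpace (ℕ → Bool) := Pi.borelSpace
  have b2 : BorelSpace (ℕ → ℕ → Bool) := Pi.borelSpace
  have b3 : BorelSpace (Fin (0 + 1) → ℕ → ℕ → Bool) := Pi.borelSpace
  have b4 : BorelSpace (ℕ → ℕ → ℕ → Bool) := Pi.borelSpace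
  have b5 : BorelSpace ((ℕ → ℕ → ℕ → Bool) × (ℕ → ℕ → Bool)) := Prod.borelSpace
  exact Prod.borelSpace

/-- The dichotomy for the structures with the polymorphism median. -/
theorem vcu_md (q : ℕ) : VCu (Pmd q : RS a → Prop) := by
  intro B hB hi hV
  have b2 : BorelSpace (XO 0) := bsX
  set B' : Set (XO 0) := {z | Xi a z ∈ B ∧ Th q (Xi a z) = z} with hB'
  have hmB : MeasurableSet B' := by
    refine ((c_xi a).measurable hB).inter ?_
    have hc : Measurable fun z : XO 0 => Th q (Xi a z) := (m_th q).comp (c_xi a).measurable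
    exact measurableSet_eq_fun hc measurable_id
  have hBT : ∀ x ∈ B, Th q x ∈ B' := fun x hx => by
    refine ⟨?_, ?_⟩
    · rw [xi_th (hV x hx)]
      exact hx
    · rw [xi_th (hV x hx)]
  have hmain := outL (n := 0) B' hmB ?_ ?_ ?_
  · rcases hmain with ⟨f, hf⟩ | ⟨c, c1, c2, c3⟩
    · left
      classical
      refine ⟨fun n => if h : ∃ x ∈ B, ∃ σ : Equiv.Perm ℕ, IX σ (f n) (Th q x) then h.choose
        else (fun _ _ => false, fun _ _ => false), fun x hx => ?_⟩
      obtain ⟨n, σ, hn⟩ := hf _ (hBT x hx)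
      refine ⟨n, ?_⟩
      have hex : ∃ x ∈ B, ∃ σ : Equiv.Perm ℕ, IX σ (f n) (Th q x) := ⟨x, hx, σ, hn⟩
      show UIso (if h : ∃ x ∈ B, ∃ σ : Equiv.Perm ℕ, IX σ (f n) (Th q x) then h.choose
        else (fun _ _ => false, fun _ _ => false)) x
      rw [dif_pos hex]
      obtain ⟨hB2, τ, hτ⟩ := hex.choose_spec
      exact iso_th (hV _ hB2) (hV _ hx) (ix_trans (ix_symm hτ) hn)
    · right
      refine ⟨fun A => Xi a (c A), (c_xi a).comp c1, fun A => (c2 A).1, fun A A' h => c3 A A' ?_⟩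
      obtain ⟨σ, hσ⟩ := h
      have h1 := th_iso hσ q
      rw [(c2 A).2, (c2 A').2] at h1
      exact ⟨σ, h1⟩
  · rintro z ⟨h1, h2⟩
    rw [← h2]
    exact los_th (hV _ h1)
  · intro z _
    exact ⟨1, fun _ => 0, fun i t => Or.inl fun a b _ _ h => by
      have : i = 0 := Subsingleton.elim (α := Fin 1) i 0
      rw [this]
      exact h⟩
  · rintro z ⟨h1, h2⟩ z' σ hσ
    obtain ⟨x, hx⟩ : ∃ x, x = Xi a z := ⟨_, rfl⟩
    rw [← hx] at h1 h2
    subst h2
    let y : US a := (fun i v => x.1 i (⇑σ.symm ∘ v), fun i m => x.2 i (σ.symm m))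
    have hy : (∀ (i : ℕ) (v : Fin (a i) → ℕ), y.1 i (⇑σ ∘ v) = x.1 i v) ∧
        ∀ i u, y.2 i (σ u) = x.2 i u := by
      refine ⟨fun i v => ?_, fun i u => ?_⟩
      · have e2 : ⇑σ.symm ∘ (⇑σ ∘ v) = v := funext fun j => σ.symm_apply_apply _
        show x.1 i (⇑σ.symm ∘ (⇑σ ∘ v)) = x.1 i v
        rw [e2]
      · show x.2 i (σ.symm (σ u)) = x.2 i u
        rw [σ.symm_apply_apply]
    have h3 := th_iso hy q
    have e1 : z' = Th q y := by
      refine Prod.ext ?_ (Prod.ext ?_ ?_)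
      · funext i m n
        have k1 := hσ.1 i (σ.symm m) (σ.symm n)
        have k2 := h3.1 i (σ.symm m) (σ.symm n)
        rw [σ.apply_symm_apply, σ.apply_symm_apply] at k1 k2
        rw [k1, k2]
      · funext i m n
        have k1 := hσ.2.1 i (σ.symm m) (σ.symm n)
        have k2 := h3.2.1 i (σ.symm m) (σ.symm n)
        rw [σ.apply_symm_apply, σ.apply_symm_apply] at k1 k2
        rw [k1, k2]
      · funext i m
        have k1 := hσ.2.2 i (σ.symm m)
        have k2 := h3.2.2 i (σ.symm m)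
        rw [σ.apply_symm_apply] at k1 k2
        rw [k1, k2]
    rw [e1]
    exact hBT _ ((hi x y ⟨σ, hy⟩).1 h1)

end Pool.Agent.H2.LP
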