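import Pool.Agent.H2.LP.Bin

set_option autoImplicit false

/-!
Operations defined from the order: if such an operation is monotone in one infinite linear order,
then it is given by a lattice term.
-/

namespace Pool.Agent.H2.LP

open Classical in
/-- the value of an operation that returns one of its arguments, depending on the comparisons of
the arguments -/
noncomputable def ov (le : ℕ → ℕ → Prop) {r : ℕ} (c : (Fin r → Fin r → Bool) → Fin r)
    (x : Fin r → ℕ) : ℕ := x (c fun i j => decide (le (x i) (x j)))

/-- its value in the two-element chain -/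
def ob {r : ℕ} (c : (Fin r → Fin r → Bool) → Fin r) (a : Fin r → Bool) : Bool :=
  a (c fun i j => !(a i) || a j)

/-- monotonicity in a linear order -/
def OM (le : ℕ → ℕ → Prop) {r : ℕ} (c : (Fin r → Fin r → Bool) → Fin r) : Prop :=
  ∀ x y : Fin r → ℕ, (∀ i, le (x i) (y i)) → le (ov le c x) (ov le c y)

/-! ### finite sets in linear orders -/

section rank

open Classical in
/-- the number of smaller elements -/
noncomputable def rk (le : ℕ → ℕ → Prop) (u : Finset ℕ) (a : ℕ) : ℕ :=
  (u.filter fun b => ¬ le a b).card

theorem rk_lt {le : ℕ → ℕ → Prop} (h : Lin le) {u : Finset ℕ} {a : ℕ} (ha : a ∈ u) :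
    rk le u a < u.card := by
  classical
  refine Finset.card_lt_card ((Finset.filter_subset _ _).ssubset_of_mem_notMem ha ?_)
  rw [Finset.mem_coe, Finset.mem_filter]
  exact fun h1 => h1.2 (h.refl a)

theorem rk_iff {le : ℕ → ℕ → Prop} (h : Lin le) {u : Finset ℕ} {a b : ℕ} (_ : a ∈ u)
    (hb : b ∈ u) : le a b ↔ rk le u a ≤ rk le u b := by
  classical
  constructor
  · intro h1
    refine Finset.card_le_card fun z hz => ?_
    rw [Finset.mem_filter] at hz ⊢
    exact ⟨hz.1, fun h2 => hz.2 (h.trans _ _ _ h1 h2)⟩
  · intro h1
    by_contra h2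
    have h3 := (h.total a b).resolve_left h2
    have h4 : rk le u b < rk le u a := by
      refine Finset.card_lt_card (Finset.ssubset_iff_subset_ne.2 ⟨fun z hz => ?_, fun he => ?_⟩)
      · rw [Finset.mem_filter] at hz ⊢
        exact ⟨hz.1, fun h5 => hz.2 (h.trans _ _ _ h3 h5)⟩
      · have h5 : b ∈ u.filter fun z => ¬ le a z := Finset.mem_filter.2 ⟨hb, h2⟩
        rw [← he, Finset.mem_filter] at h5
        exact h5.2 (h.refl b)
    omega

/-- finite linear orders embed into infinite ones -/
theorem embed {le le' : ℕ → ℕ → Prop} (h : Lin le) (h' : Lin le') (s : Finset ℕ) :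
    ∃ f : ℕ → ℕ, ∀ a ∈ s, ∀ b ∈ s, le a b ↔ le' (f a) (f b) := by
  classical
  let u := Finset.range s.card
  have hu : u.card = s.card := Finset.card_range _
  have hs : Set.SurjOn (rk le' u) (u : Set ℕ) (Finset.range u.card : Finset ℕ) := by
    refine Finset.surjOn_of_injOn_of_card_le _ (fun a ha => ?_) (fun a ha b hb hab => ?_) ?_
    · exact Finset.mem_coe.2 (Finset.mem_range.2 (rk_lt h' (Finset.mem_coe.1 ha)))
    · have ha' := Finset.mem_coe.1 ha
      have hb' := Finset.mem_coe.1 hb
      exact h'.anti _ _ ((rk_iff h' ha' hb').2 hab.le) ((rk_iff h' hb' ha').2 hab.ge)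
    · rw [Finset.card_range]
  have hex : ∀ a, ∃ b, a ∈ s → b ∈ u ∧ rk le' u b = rk le s a := by
    intro a
    by_cases ha : a ∈ s
    · have h1 : rk le s a ∈ ((Finset.range u.card : Finset ℕ) : Set ℕ) :=
        Finset.mem_coe.2 (Finset.mem_range.2 (by
          rw [hu]
          exact rk_lt h ha))
      obtain ⟨b, hb, hb'⟩ := hs h1
      exact ⟨b, fun _ => ⟨hb, hb'⟩⟩
    · exact ⟨0, fun h1 => absurd h1 ha⟩
  choose f hf using hex
  refine ⟨f, fun a ha b hb => ?_⟩
  obtain ⟨h1, h2⟩ := hf a ha
  obtain ⟨h3, h4⟩ := hf b hb
  rw [rk_iff h ha hb, rk_iff h' h1 h3, h2, h4]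

end rank

/-- an operation which is monotone in one linear order is monotone in all linear orders -/
theorem om_all {le le' : ℕ → ℕ → Prop} (h : Lin le) (h' : Lin le') {r : ℕ}
    {c : (Fin r → Fin r → Bool) → Fin r} (hc : OM le' c) : OM le c := by
  classical
  intro x y hxy
  obtain ⟨f, hf⟩ := embed h h' (Finset.univ.image x ∪ Finset.univ.image y)
  have mx : ∀ i, x i ∈ Finset.univ.image x ∪ Finset.univ.image y := fun i =>
    Finset.mem_union_left _ (Finset.mem_image_of_mem _ (Finset.mem_univ i))
  have my : ∀ i, y i ∈ Finset.univ.image x ∪ Finset.univ.image y := fun i =>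
    Finset.mem_union_right _ (Finset.mem_image_of_mem _ (Finset.mem_univ i))
  have e1 : ov le' c (fun i => f (x i)) = f (ov le c x) := by
    show f (x _) = f (x _)
    have : (fun i j => decide (le' (f (x i)) (f (x j)))) = fun i j => decide (le (x i) (x j)) := by
      funext i j
      rw [decide_eq_decide]
      exact (hf _ (mx i) _ (mx j)).symm
    rw [this]
  have e2 : ov le' c (fun i => f (y i)) = f (ov le c y) := by
    show f (y _) = f (y _)
    have : (fun i j => decide (le' (f (y i)) (f (y j)))) = fun i j => decide (le (y i) (y j)) := by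
      funext i j
      rw [decide_eq_decide]
      exact (hf _ (my i) _ (my j)).symm
    rw [this]
  have h1 := hc (fun i => f (x i)) (fun i => f (y i)) fun i => (hf _ (mx i) _ (my i)).1 (hxy i)
  rw [e1, e2] at h1
  exact (hf _ (mx _) _ (my _)).2 h1

/-! ### monotone Boolean functions -/

theorem inf_ex {r : ℕ} {ι : Type} (f : ι → LatticeTerm r) (s : Finset ι) (hs : s.Nonempty) :
    ∃ t : LatticeTerm r, ∀ A, t.bool A = true ↔ ∀ i ∈ s, (f i).bool A = true := by
  induction hs using Finset.Nonempty.cons_induction with
  | singleton i => exact ⟨f i, fun A => by simp⟩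
  | cons i s hi hs ih =>
    obtain ⟨t, ht⟩ := ih
    refine ⟨.inf (f i) t, fun A => ?_⟩
    show ((f i).bool A && t.bool A) = true ↔ _
    rw [Bool.and_eq_true, ht]
    simp

theorem sup_ex {r : ℕ} {ι : Type} (f : ι → LatticeTerm r) (s : Finset ι) (hs : s.Nonempty) :
    ∃ t : LatticeTerm r, ∀ A, t.bool A = true ↔ ∃ i ∈ s, (f i).bool A = true := by
  induction hs using Finset.Nonempty.cons_induction with
  | singleton i => exact ⟨f i, fun A => by simp⟩
  | cons i s hi hs ih =>
    obtain ⟨t, ht⟩ := ih
    refine ⟨.sup (f i) t, fun A => ?_⟩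
    show ((f i).bool A || t.bool A) = true ↔ _
    rw [Bool.or_eq_true, ht]
    simp

theorem term_of {r : ℕ} {φ : (Fin r → Bool) → Bool}
    (h : ∀ A B : Fin r → Bool, (∀ i, A i = true → B i = true) → φ A = true → φ B = true)
    (h0 : φ (fun _ => false) = false) (h1 : φ (fun _ => true) = true) :
    ∃ t : LatticeTerm r, ∀ A, t.bool A = true ↔ φ A = true := by
  classical
  have hm : ∀ A : Fin r → Bool, ∃ t : LatticeTerm r, φ A = true →
      ∀ B, t.bool B = true ↔ ∀ i, A i = true → B i = true := by
    intro A
    by_cases hA : φ A = true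
    · have hne : (Finset.univ.filter fun i => A i = true).Nonempty := by
        by_contra hcon
        rw [Finset.not_nonempty_iff_eq_empty] at hcon
        have : A = fun _ => false := by
          funext i
          by_contra hi
          have h2 : i ∈ Finset.univ.filter fun i => A i = true :=
            Finset.mem_filter.2 ⟨Finset.mem_univ i, by simpa using hi⟩
          rw [hcon] at h2
          exact absurd h2 (Finset.notMem_empty i)
        rw [this, h0] at hA
        exact absurd hA (by decide)
      obtain ⟨t, ht⟩ := inf_ex (fun i => LatticeTerm.var i) _ hne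
      refine ⟨t, fun _ B => ?_⟩
      rw [ht]
      simp only [Finset.mem_filter, Finset.mem_univ, true_and]
      exact Iff.rfl
    · have hr : 0 < r := by
        by_contra hr
        have hr' : r = 0 := by omega
        subst hr'
        have : A = fun _ => true := funext fun i => i.elim0
        rw [this] at hA
        exact hA h1
      exact ⟨.var ⟨0, hr⟩, fun h2 => absurd h2 hA⟩
  choose m hm using hm
  obtain ⟨t, ht⟩ := sup_ex m (Finset.univ.filter fun A => φ A = true)
    ⟨fun _ => true, Finset.mem_filter.2 ⟨Finset.mem_univ _, h1⟩⟩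
  refine ⟨t, fun A => ?_⟩
  rw [ht]
  constructor
  · rintro ⟨B, hB, h2⟩
    have hB' := (Finset.mem_filter.1 hB).2
    exact h B A ((hm B hB' A).1 h2) hB'
  · intro hA
    exact ⟨A, Finset.mem_filter.2 ⟨Finset.mem_univ _, hA⟩, (hm A hA A).2 fun _ h2 => h2⟩

/-! ### the operation is a term -/

section term

variable {le : ℕ → ℕ → Prop} (h : Lin le) {r : ℕ} {c : (Fin r → Fin r → Bool) → Fin r}

include h

theorem ex_max (f : Fin r → ℕ) (s : Finset (Fin r)) (hs : s.Nonempty) :
    ∃ i ∈ s, ∀ j ∈ s, le (f j) (f i) := by
  induction hs using Finset.Nonempty.cons_induction with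
  | singleton i => exact ⟨i, by simp, fun j hj => by
      rw [Finset.mem_singleton.1 hj]
      exact h.refl _⟩
  | cons i s hi hs ih =>
    obtain ⟨k, hk, hk'⟩ := ih
    rcases h.total (f i) (f k) with h1 | h1
    · refine ⟨k, Finset.mem_cons.2 (Or.inr hk), fun j hj => ?_⟩
      rcases Finset.mem_cons.1 hj with rfl | hj
      · exact h1
      · exact hk' j hj
    · refine ⟨i, Finset.mem_cons.2 (Or.inl rfl), fun j hj => ?_⟩
      rcases Finset.mem_cons.1 hj with rfl | hj
      · exact h.refl _
      · exact h.trans _ _ _ (hk' j hj) h1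

/-- two-valued arguments -/
theorem ov_two {a b : ℕ} (hab : le a b) (hne : ¬ le b a) (A : Fin r → Bool) :
    ov le c (fun i => if A i = true then b else a) = if ob c A = true then b else a := by
  classical
  have e : (fun i j => decide (le (if A i = true then b else a) (if A j = true then b else a))) =
      fun i j => !(A i) || A j := by
    funext i j
    cases hi : A i <;> cases hj : A j
    · simp [h.refl]
    · simp [hab]
    · simp [hne]
    · simp [h.refl]
  show (if A (c _) = true then b else a) = _
  rw [e]
  rfl

theorem ob_mono (hc : OM le c) (A B : Fin r → Bool) (hAB : ∀ i, A i = true → B i = true)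
    (hA : ob c A = true) : ob c B = true := by
  obtain ⟨a, b, hab, hne⟩ : ∃ a b, le a b ∧ ¬ le b a := by
    rcases h.total 0 1 with h1 | h1
    · exact ⟨0, 1, h1, fun h2 => absurd (h.anti _ _ h1 h2) (by decide)⟩
    · exact ⟨1, 0, h1, fun h2 => absurd (h.anti _ _ h1 h2) (by decide)⟩
  have h1 := hc (fun i => if A i = true then b else a) (fun i => if B i = true then b else a)
    fun i => by
      show le (if A i = true then b else a) (if B i = true then b else a)
      by_cases hi : A i = true
      · rw [if_pos hi, if_pos (hAB i hi)]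
        exact h.refl b
      · rw [if_neg hi]
        split_ifs
        · exact hab
        · exact h.refl a
  rw [ov_two h hab hne, ov_two h hab hne, if_pos hA] at h1
  by_contra hB
  rw [if_neg hB] at h1
  exact hne h1

omit h in
theorem ob_const (d : Bool) (c : (Fin r → Fin r → Bool) → Fin r) : ob c (fun _ => d) = d := rfl

open Classical in
theorem le_ov (hc : OM le c) (x : Fin r → ℕ) (w : ℕ) :
    le w (ov le c x) ↔ ob c (fun i => decide (le w (x i))) = true := by
  obtain ⟨A, hA⟩ : ∃ A : Fin r → Bool, A = fun i => decide (le w (x i)) := ⟨_, rfl⟩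
  rw [← hA]
  have hAt : ∀ i, A i = true ↔ le w (x i) := fun i => by
    rw [hA]
    exact decide_eq_true_iff
  have hr : (Finset.univ : Finset (Fin r)).Nonempty := ⟨c fun _ _ => true, Finset.mem_univ _⟩
  constructor
  · intro h1
    by_contra h2
    have hN : (Finset.univ.filter fun i => A i ≠ true).Nonempty := by
      by_contra hcon
      rw [Finset.not_nonempty_iff_eq_empty] at hcon
      have : A = fun _ => true := by
        funext i
        by_contra hi
        have h3 : i ∈ Finset.univ.filter fun i => A i ≠ true :=
          Finset.mem_filter.2 ⟨Finset.mem_univ i, hi⟩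
        rw [hcon] at h3
        exact absurd h3 (Finset.notMem_empty i)
      rw [this] at h2
      exact h2 rfl
    obtain ⟨k, hk, hk'⟩ := ex_max h x _ hN
    obtain ⟨l, -, hl⟩ := ex_max h x _ hr
    have hkA : ¬ le w (x k) := fun h3 => (Finset.mem_filter.1 hk).2 ((hAt k).2 h3)
    have h3 := hc x (fun i => if A i = true then x l else x k) fun i => by
      show le (x i) (if A i = true then x l else x k)
      split_ifs with hi
      · exact hl i (Finset.mem_univ i)
      · exact hk' i (Finset.mem_filter.2 ⟨Finset.mem_univ i, hi⟩)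
    have h4 : ov le c (fun i => if A i = true then x l else x k) = x k := by
      by_cases hlk : le (x l) (x k)
      · have e : (fun i => if A i = true then x l else x k) = fun _ => x k := by
          funext i
          split_ifs
          · exact h.anti _ _ hlk (hl k (Finset.mem_univ k))
          · rfl
        rw [e]
        rfl
      · rw [ov_two h (hl k (Finset.mem_univ k)) hlk, if_neg h2]
    rw [h4] at h3
    exact hkA (h.trans _ _ _ h1 h3)
  · intro h1
    by_cases hN : ∃ i, A i ≠ true
    · obtain ⟨n, hn⟩ := hN
      have hn' : ¬ le w (x n) := fun h2 => hn ((hAt n).2 h2)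
      have hP : (Finset.univ.filter fun i => A i = true).Nonempty := by
        by_contra hcon
        rw [Finset.not_nonempty_iff_eq_empty] at hcon
        have : A = fun _ => false := by
          funext i
          by_contra hi
          have h3 : i ∈ Finset.univ.filter fun i => A i = true :=
            Finset.mem_filter.2 ⟨Finset.mem_univ i, by simpa using hi⟩
          rw [hcon] at h3
          exact absurd h3 (Finset.notMem_empty i)
        rw [this, ob_const] at h1
        exact absurd h1 (by decide)
      obtain ⟨k, hk, hk'⟩ := ex_max h.op x _ hP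
      obtain ⟨l, -, hl⟩ := ex_max h.op x _ hr
      have hkA : le w (x k) := (hAt k).1 (Finset.mem_filter.1 hk).2
      have hlk : le (x l) (x k) := hl k (Finset.mem_univ k)
      have hne : ¬ le (x k) (x l) := fun h2 =>
        hn' (h.trans _ _ _ hkA (h.trans _ _ _ h2 (hl n (Finset.mem_univ n))))
      have h3 := hc (fun i => if A i = true then x k else x l) x fun i => by
        show le (if A i = true then x k else x l) (x i)
        split_ifs with hi
        · exact hk' i (Finset.mem_filter.2 ⟨Finset.mem_univ i, hi⟩)
        · exact hl i (Finset.mem_univ i)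
      rw [ov_two h hlk hne, if_pos h1] at h3
      exact h.trans _ _ _ hkA h3
    · push Not at hN
      exact (hAt _).1 (hN _)

end term

/-- monotone operations defined from the order are given by lattice terms -/
theorem op_term {r : ℕ} {c : (Fin r → Fin r → Bool) → Fin r} {le' : ℕ → ℕ → Prop}
    (h' : Lin le') (hc : OM le' c) : ∃ t : LatticeTerm r,
      (∀ A, t.bool A = true ↔ ob c A = true) ∧ ∀ le, Lin le → t.value le = ov le c := by
  classical
  obtain ⟨t, ht⟩ := term_of (φ := ob c) (ob_mono h' hc) (ob_const _ _) (ob_const _ _)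
  refine ⟨t, ht, fun le h => funext fun x => eq_of h fun w => ?_⟩
  rw [LatticeTerm.le_value h, le_ov h (om_all h h' hc), ht]

end Pool.Agent.H2.LP
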